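import Pool.Agent.Helper95_DC.Sys

set_option autoImplicit false

/-!
Koopman representations, almost invariant functions of ergodic systems, and the spectral gap.
-/

namespace Pool.Agent.Helper94_DC

open MeasureTheory Filter Pool.Agent.Helper95_DC
open scoped ENNReal

variable {G : Type} [Group G]

/-- The Koopman representation of a measure preserving action. -/
noncomputable def koop {M : Type} [MeasurableSpace M] (m : Measure M) (U : G → M → M)
    (U_one : ∀ x, U 1 x = x) (U_mul : ∀ g h x, U (g * h) x = U g (U h x))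
    (mp : ∀ g, MeasurePreserving (U g) m m) : G →* Module.End ℝ (Lp ℝ 2 m) where
  toFun g := Lp.compMeasurePreservingₗ ℝ (U g⁻¹) (mp g⁻¹)
  map_one' := by
    ext f : 1
    have h : U (1 : G)⁻¹ = id := by funext x; rw [inv_one, U_one]; rfl
    change Lp.compMeasurePreserving (U (1 : G)⁻¹) (mp (1 : G)⁻¹) f = f
    have h2 : Lp.compMeasurePreserving (U (1 : G)⁻¹) (mp (1 : G)⁻¹) f =ᵐ[m] f := by
      refine (Lp.coeFn_compMeasurePreserving f (mp (1 : G)⁻¹)).trans ?_
      rw [h, Function.comp_id]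
    exact Lp.ext h2
  map_mul' g h := by
    ext f : 1
    change Lp.compMeasurePreserving (U (g * h)⁻¹) (mp (g * h)⁻¹) f =
      Lp.compMeasurePreserving (U g⁻¹) (mp g⁻¹)
        (Lp.compMeasurePreserving (U h⁻¹) (mp h⁻¹) f)
    apply Lp.ext
    have h1 := Lp.coeFn_compMeasurePreserving f (mp (g * h)⁻¹)
    have h2 := Lp.coeFn_compMeasurePreserving f (mp h⁻¹)
    have h3 := Lp.coeFn_compMeasurePreserving (Lp.compMeasurePreserving (U h⁻¹) (mp h⁻¹) f)
      (mp g⁻¹)
    have h4 := (mp g⁻¹).quasiMeasurePreserving.ae h2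
    filter_upwards [h1, h3, h4] with x h1 h3 h4
    rw [h1, h3]
    simp only [Function.comp_apply] at h4 ⊢
    rw [h4, mul_inv_rev, U_mul]

theorem koop_norm {M : Type} [MeasurableSpace M] (m : Measure M) (U : G → M → M)
    (U_one : ∀ x, U 1 x = x) (U_mul : ∀ g h x, U (g * h) x = U g (U h x))
    (mp : ∀ g, MeasurePreserving (U g) m m) (g : G) (v : Lp ℝ 2 m) :
    ‖koop m U U_one U_mul mp g v‖ = ‖v‖ :=
  Lp.norm_compMeasurePreserving v (mp g⁻¹)

theorem koop_coe {M : Type} [MeasurableSpace M] (m : Measure M) (U : G → M → M)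
    (U_one : ∀ x, U 1 x = x) (U_mul : ∀ g h x, U (g * h) x = U g (U h x))
    (mp : ∀ g, MeasurePreserving (U g) m m) (g : G) (v : Lp ℝ 2 m) :
    koop m U U_one U_mul mp g v =ᵐ[m] v ∘ U g⁻¹ :=
  Lp.coeFn_compMeasurePreserving v (mp g⁻¹)

/-- Squared norm of the difference of two elements of `L²`. -/
theorem norm_sub_sq {M : Type} [MeasurableSpace M] (m : Measure M) (u v : Lp ℝ 2 m) (f : M → ℝ)
    (_hf : Measurable f) (h : ∀ᵐ x ∂m, u x - v x = f x) :
    ENNReal.ofReal (‖u - v‖ ^ 2) = ∫⁻ x, ‖f x‖ₑ ^ 2 ∂m := by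
  have h1 : ((u - v : Lp ℝ 2 m) : M → ℝ) =ᵐ[m] f := by
    filter_upwards [Lp.coeFn_sub u v, h] with x h1 h2
    rw [h1, Pi.sub_apply, h2]
  have h2 : eLpNorm f 2 m = ENNReal.ofReal ‖u - v‖ := by
    rw [← eLpNorm_congr_ae h1, Lp.norm_def, ENNReal.ofReal_toReal]
    exact Lp.eLpNorm_ne_top _
  rw [ENNReal.ofReal_pow (norm_nonneg _), ← h2]
  rw [eLpNorm_eq_lintegral_rpow_enorm_toReal (by norm_num) (by norm_num)]
  have h3 : (2 : ℝ≥0∞).toReal = 2 := by norm_num
  rw [h3]
  rw [← ENNReal.rpow_natCast, ← ENNReal.rpow_mul]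
  norm_num

/-- An almost everywhere invariant measurable function of an ergodic system is constant. -/
theorem Erg.ae_const {Ω : Type} [MeasurableSpace Ω] {s : Sys G Ω} (hs : s.Erg) {β : Type}
    [Nonempty β] [MeasurableSpace β] [MeasurableSpace.CountablySeparated β] {f : Ω → β}
    (hf : Measurable f) (hinv : ∀ g, ∀ᵐ ω ∂s.P, f (s.T g ω) = f ω) :
    ∃ c, ∀ᵐ ω ∂s.P, f ω = c := by
  have h : ∃ a, f =ᶠ[ae s.P] Function.const Ω a := by
    refine exists_eventuallyEq_const_of_forall_separating MeasurableSet (fun U hU => ?_)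
    have h1 := hs (f ⁻¹' U) (hf hU) (fun g => by
      filter_upwards [hinv g] with ω hω
      rw [Set.mem_preimage, Set.mem_preimage, hω])
    rcases h1 with h1 | h1
    · right
      exact measure_eq_zero_iff_ae_notMem.1 h1
    · left
      exact (prob_compl_eq_zero_iff (hf hU)).2 h1
  obtain ⟨a, ha⟩ := h
  exact ⟨a, ha⟩

/-- An invariant event of positive probability has probability one. -/
theorem Erg.ae_of_pos {Ω : Type} [MeasurableSpace Ω] {s : Sys G Ω} (hs : s.Erg) {A : Set Ω}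
    (hA : MeasurableSet A) (hinv : ∀ g, ∀ᵐ ω ∂s.P, (s.T g ω ∈ A ↔ ω ∈ A)) (h0 : s.P A ≠ 0) :
    ∀ᵐ ω ∂s.P, ω ∈ A := by
  rcases hs A hA hinv with h | h
  · exact absurd h h0
  · exact (prob_compl_eq_zero_iff hA).2 h

/-- Spectral gap. -/
theorem gap : GapStatement := by
  intro G _ S C hC hK Ω _ s hs A hA ε hε hS
  classical
  set ρ := koop s.P s.T s.T_one s.T_mul s.mp with hρ
  have hmem : MemLp (A.indicator (fun _ => (1 : ℝ))) 2 s.P :=
    (memLp_const (1 : ℝ)).indicator hA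
  set v : Lp ℝ 2 s.P := hmem.toLp _ with hv
  have hvc : v =ᵐ[s.P] A.indicator (fun _ => (1 : ℝ)) := hmem.coeFn_toLp
  -- almost invariance
  have h1 : ∀ g ∈ S, ‖ρ g v - v‖ ≤ Real.sqrt ε := by
    intro g hg
    apply Real.le_sqrt_of_sq_le
    set B : Set Ω := {ω | ¬ (s.T g ω ∈ A ↔ ω ∈ A)} with hB
    have hBm : MeasurableSet B := by
      have h2 : B = symmDiff (s.T g ⁻¹' A) A := by
        ext ω
        simp only [hB, Set.mem_ofPred_eq, Set.mem_symmDiff, Set.mem_preimage]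
        tauto
      rw [h2]
      exact ((s.mp g).measurable hA).symmDiff hA
    have h2 : ∀ᵐ ω ∂s.P, (ρ g v) ω - v ω =
        (s.T g⁻¹ ⁻¹' A).indicator (fun _ => (1 : ℝ)) ω - A.indicator (fun _ => (1 : ℝ)) ω := by
      have h3 := koop_coe s.P s.T s.T_one s.T_mul s.mp g v
      have h4 := (s.mp g⁻¹).quasiMeasurePreserving.ae hvc
      filter_upwards [h3, h4, hvc] with ω h3 h4 h5
      rw [h3, Function.comp_apply, h4, h5]
      rfl
    have hmeas : Measurable (fun ω => (s.T g⁻¹ ⁻¹' A).indicator (fun _ => (1 : ℝ)) ω -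
        A.indicator (fun _ => (1 : ℝ)) ω) :=
      (measurable_const.indicator ((s.mp g⁻¹).measurable hA)).sub (measurable_const.indicator hA)
    have h3 := norm_sub_sq s.P (ρ g v) v _ hmeas h2
    have h4 : ∫⁻ ω, ‖(s.T g⁻¹ ⁻¹' A).indicator (fun _ => (1 : ℝ)) ω -
        A.indicator (fun _ => (1 : ℝ)) ω‖ₑ ^ 2 ∂s.P = s.P B := by
      have h5 : ∀ ω, ‖(s.T g⁻¹ ⁻¹' A).indicator (fun _ => (1 : ℝ)) ω -
          A.indicator (fun _ => (1 : ℝ)) ω‖ₑ ^ 2 = (s.T g⁻¹ ⁻¹' B).indicator (fun _ => 1) ω := by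
        intro ω
        have h6 : s.T g (s.T g⁻¹ ω) = ω := by
          rw [← s.T_mul, mul_inv_cancel, s.T_one]
        by_cases h7 : s.T g⁻¹ ω ∈ A <;> by_cases h8 : ω ∈ A <;>
          simp [Set.indicator, hB, h6, h7, h8]
      rw [lintegral_congr h5, lintegral_indicator_const ((s.mp g⁻¹).measurable hBm), one_mul,
        (s.mp g⁻¹).measure_preimage hBm.nullMeasurableSet]
    rw [h4] at h3
    have h5 : ENNReal.ofReal (‖ρ g v - v‖ ^ 2) ≤ ENNReal.ofReal ε := by
      rw [h3]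
      have h6 := hS g hg
      rw [Measure.real] at h6
      rw [← ENNReal.ofReal_toReal (measure_ne_top s.P B)]
      exact ENNReal.ofReal_le_ofReal h6
    exact (ENNReal.ofReal_le_ofReal_iff hε).1 h5
  obtain ⟨w, hw, hvw⟩ := hK (Lp ℝ 2 s.P) ρ (koop_norm s.P s.T s.T_one s.T_mul s.mp) v
    (Real.sqrt ε) (Real.sqrt_nonneg _) h1
  -- the invariant vector is constant
  obtain ⟨c, hc⟩ : ∃ c : ℝ, ∀ᵐ ω ∂s.P, w ω = c := by
    refine Erg.ae_const hs (Lp.stronglyMeasurable w).measurable (fun g => ?_)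
    have h3 := koop_coe s.P s.T s.T_one s.T_mul s.mp g⁻¹ w
    have h4 : ρ g⁻¹ w = w := hw g⁻¹
    rw [hρ] at h4
    rw [h4] at h3
    filter_upwards [h3] with ω h3
    rw [h3, inv_inv]
    rfl
  have h2 : ∀ᵐ ω ∂s.P, v ω - w ω = A.indicator (fun _ => (1 : ℝ)) ω - c := by
    filter_upwards [hvc, hc] with ω h3 h4
    rw [h3, h4]
  have hmeas : Measurable (fun ω => A.indicator (fun _ => (1 : ℝ)) ω - c) :=
    (measurable_const.indicator hA).sub_const c
  have h3 := norm_sub_sq s.P v w _ hmeas h2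
  have h4 : ∫⁻ ω, ‖A.indicator (fun _ => (1 : ℝ)) ω - c‖ₑ ^ 2 ∂s.P =
      ENNReal.ofReal ((1 - c) ^ 2) * s.P A + ENNReal.ofReal (c ^ 2) * s.P Aᶜ := by
    have h5 : ∀ ω, ‖A.indicator (fun _ => (1 : ℝ)) ω - c‖ₑ ^ 2 =
        A.indicator (fun _ => ENNReal.ofReal ((1 - c) ^ 2)) ω +
          Aᶜ.indicator (fun _ => ENNReal.ofReal (c ^ 2)) ω := by
      intro ω
      by_cases h6 : ω ∈ A
      · simp only [Set.indicator, h6, if_true, Set.mem_compl_iff, not_true_eq_false, if_false,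
          add_zero]
        rw [← ofReal_norm, ← ENNReal.ofReal_pow (norm_nonneg _), Real.norm_eq_abs, sq_abs]
      · simp only [Set.indicator, h6, if_false, Set.mem_compl_iff, not_false_eq_true, if_true,
          zero_add]
        rw [← ofReal_norm, ← ENNReal.ofReal_pow (norm_nonneg _), Real.norm_eq_abs, sq_abs]
        congr 1
        ring
    rw [lintegral_congr h5, lintegral_add_left (measurable_const.indicator hA),
      lintegral_indicator_const hA, lintegral_indicator_const hA.compl]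
  have h5 : ‖v - w‖ ^ 2 = (1 - c) ^ 2 * s.P.real A + c ^ 2 * (1 - s.P.real A) := by
    have h6 : s.P Aᶜ = ENNReal.ofReal (1 - s.P.real A) := by
      rw [← probReal_compl_eq_one_sub hA, Measure.real, ENNReal.ofReal_toReal (measure_ne_top _ _)]
    have h7 : s.P A = ENNReal.ofReal (s.P.real A) := by
      rw [Measure.real, ENNReal.ofReal_toReal (measure_ne_top _ _)]
    have h8 : 0 ≤ 1 - s.P.real A := by
      linarith [measureReal_le_one (μ := s.P) (s := A)]
    have h9 : 0 ≤ s.P.real A := measureReal_nonneg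
    rw [h4, h6, h7, ← ENNReal.ofReal_mul (sq_nonneg _), ← ENNReal.ofReal_mul (sq_nonneg _),
      ← ENNReal.ofReal_add (by positivity) (by positivity)] at h3
    exact (ENNReal.ofReal_eq_ofReal_iff (sq_nonneg _) (by positivity)).1 h3
  have h6 : ‖v - w‖ ^ 2 ≤ C ^ 2 * ε := by
    calc ‖v - w‖ ^ 2 ≤ (C * Real.sqrt ε) ^ 2 := by
          exact pow_le_pow_left₀ (norm_nonneg _) hvw 2
      _ = C ^ 2 * ε := by rw [mul_pow, Real.sq_sqrt hε]
  have h7 : s.P.real A * (1 - s.P.real A) ≤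
      (1 - c) ^ 2 * s.P.real A + c ^ 2 * (1 - s.P.real A) := by
    nlinarith [sq_nonneg (c - s.P.real A)]
  linarith

end Pool.Agent.Helper94_DC
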