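import Pool.Agent.Helper95_DC.Pres
import Pool.Agent.Helper95_DC.Defs

set_option autoImplicit false

/-!
Assembly of the group-theoretic half.
-/

namespace Pool.Agent.Helper94_DC

open Pool.Agent.Helper95_DC
open scoped commutatorElement

/-- The free group of rank six. -/
abbrev F6 : Type := FreeGroup (Fin 6)

/-- One stage of the construction. -/
structure Stg where
  N : Subgroup F6
  V : Subgroup F6
  Fil : ℕ → Subgroup F6
  b : ℝ
  M : Subgroup F6
  st : State 29 (1 / 4) N V Fil b
  Mn : M.Normal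
  Mi : ∃ k, M.index = 29 ^ k
  NM : N ≤ M

theorem inf_index {F : Type} [Group F] {p : ℕ} [Fact p.Prime] (A B : Subgroup F)
    (hB : B.Normal) (hAi : ∃ k, A.index = p ^ k) (hBi : ∃ k, B.index = p ^ k) :
    ∃ k, (A ⊓ B).index = p ^ k := by
  obtain ⟨a, ha⟩ := hAi
  obtain ⟨b, hb⟩ := hBi
  have h1 : (A ⊓ B).index = (A ⊓ B).relIndex A * A.index :=
    (Subgroup.relIndex_mul_index inf_le_left).symm
  have h2 : (A ⊓ B).relIndex A = B.relIndex A := by
    rw [Subgroup.inf_relIndex_left]
  have h3 : B.relIndex A ∣ p ^ b := by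
    rw [← hb]
    exact Subgroup.relIndex_dvd_index_of_normal B A
  obtain ⟨c, -, hc⟩ := (Nat.dvd_prime_pow Fact.out).1 h3
  refine ⟨c + a, ?_⟩
  rw [h1, h2, hc, ha, pow_add]

theorem step (hS : StageStatement) (hT : TorsStatement) (hB : BasicStatement) (a : Stg)
    (S : Finset F6) (g : F6) (n : ℕ) :
    ∃ a' : Stg, a.N ≤ a'.N ∧ a'.M ≤ a.M ∧ n ≤ a'.M.index ∧
      ((Subgroup.closure (S : Set F6) ⊔ a'.N).FiniteIndex ∨
        a'.N.relIndex (Subgroup.closure (S : Set F6)) ≠ 0) ∧ ∃ k, g ^ 29 ^ k ∈ a'.N := by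
  have h29 : Fact (Nat.Prime 29) := ⟨by norm_num⟩
  obtain ⟨N1, V1, Fil1, b1, st1, h1, h2, h3⟩ := hS 29 (1 / 4) (by norm_num) (by norm_num) F6
    a.N a.V a.Fil a.b a.st S a.M a.Mn a.Mi a.NM
  obtain ⟨N2, Fil2, b2, st2, h4, h5, h6⟩ := hT 29 (1 / 4) (by norm_num) (by norm_num) F6
    N1 V1 Fil1 b1 st1 g a.M a.Mn a.Mi h2
  obtain ⟨hax, -, -, hpow, hbig, -⟩ := hB 29 (1 / 4) (by norm_num) (by norm_num) F6
    N2 V1 Fil2 b2 st2
  obtain ⟨m, hm⟩ := hbig n
  have hidx : ∃ k, (a.M ⊓ Fil2 m).index = 29 ^ k :=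
    inf_index _ _ (st2.Fil_normal m) a.Mi (hpow m)
  have hn1 := a.Mn
  have hn2 := st2.Fil_normal m
  refine ⟨⟨N2, V1, Fil2, b2, a.M ⊓ Fil2 m, st2, inferInstance, hidx,
    le_inf h5 (hax.N_le m)⟩, h1.trans h4, inf_le_left, ?_, ?_, h6⟩
  · refine hm.trans ?_
    obtain ⟨k, hk⟩ := hidx
    have h7 : (a.M ⊓ Fil2 m).index ≠ 0 := by
      rw [hk]
      positivity
    exact Nat.le_of_dvd (Nat.pos_of_ne_zero h7) (Subgroup.index_dvd_of_le inf_le_right)
  · rcases h3 with h3 | h3
    · left
      exact Subgroup.finiteIndex_of_le (sup_le_sup_left h4 _)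
    · right
      exact fun h7 => h3 (Subgroup.relIndex_eq_zero_of_le_left h4 h7)

/-- The group-theoretic half. -/
theorem grp_of (hBase : BaseStatement) (hS : StageStatement) (hT : TorsStatement)
    (hB : BasicStatement) : GrpStatement := by
  classical
  obtain ⟨N₀, Fil₀, b₀, st₀, hr1, hr2, hr3⟩ := hBase
  have hcF : Countable F6 := by
    have : Function.Surjective (Quot.mk (@FreeGroup.Red.Step (Fin 6))) := Quot.mk_surjective
    exact this.countable
  obtain ⟨task, htask⟩ := exists_surjective_nat (Finset F6 × F6)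
  let a₀ : Stg := ⟨N₀, ⊤, Fil₀, b₀, ⊤, st₀, inferInstance, ⟨0, by simp⟩, le_top⟩
  choose next hN hM hidx hSt hTo using step hS hT hB
  let a : ℕ → Stg := fun k => Nat.rec a₀ (fun k b => next b (task k).1 (task k).2 k) k
  have ha : ∀ k, a (k + 1) = next (a k) (task k).1 (task k).2 k := fun k => rfl
  have hNmono : Monotone (fun k => (a k).N) := monotone_nat_of_le_succ (fun k => by
    rw [ha]; exact hN _ _ _ _)
  have hManti : Antitone (fun k => (a k).M) := antitone_nat_of_succ_le (fun k => by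
    rw [ha]; exact hM _ _ _ _)
  let K : Subgroup F6 := ⨅ k, (a k).M
  have hMn : ∀ k, ((a k).M).Normal := fun k => (a k).Mn
  have hKn : K.Normal := Subgroup.normal_iInf_normal hMn
  have hNK : ∀ k, (a k).N ≤ K := by
    intro k
    refine le_iInf (fun j => ?_)
    rcases le_total j k with h | h
    · exact (a k).NM.trans (hManti h)
    · exact (hNmono h).trans (a j).NM
  have hKM : ∀ k, K ≤ (a k).M := fun k => iInf_le _ k
  let q : F6 →* F6 ⧸ K := QuotientGroup.mk' K
  have hq : Function.Surjective q := QuotientGroup.mk'_surjective K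
  have hker : q.ker = K := QuotientGroup.ker_mk' K
  have hmapidx : ∀ L : Subgroup F6, K ≤ L → (L.map q).index = L.index := by
    intro L hL
    exact Subgroup.index_map_eq L hq (by rw [hker]; exact hL)
  refine ⟨F6 ⧸ K, inferInstance, fun i => q (FreeGroup.of i), ?_, ?_, ?_, ?_, ?_, ?_⟩
  · have h1 : Set.range (fun i => q (FreeGroup.of i)) = q '' Set.range FreeGroup.of := by
      rw [← Set.range_comp]
      rfl
    rw [h1, ← MonoidHom.map_closure, FreeGroup.closure_range_of]
    exact Subgroup.map_top_of_surjective _ hq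
  · have h0 : ∀ x ∈ N₀, q x = 1 := by
      intro x hx
      rw [← MonoidHom.mem_ker, hker]
      exact hNK 0 hx
    refine ⟨fun i => ?_, fun i j => ?_, fun i j => ?_⟩
    · rw [← map_pow]
      exact h0 _ (hr1 i)
    · rw [← map_commutatorElement, ← map_commutatorElement]
      exact h0 _ (hr2 i j)
    · rw [← map_commutatorElement, ← map_commutatorElement]
      exact h0 _ (hr3 i j)
  · -- infinite
    by_contra hinf
    rw [not_infinite_iff_finite] at hinf
    have h1 : K.index ≠ 0 := by
      have : K.FiniteIndex := Subgroup.finiteIndex_of_finite_quotient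
      exact this.index_ne_zero
    have h2 : ∀ n : ℕ, n ≤ (a (n + 1)).M.index := by
      intro n
      rw [ha]
      exact hidx _ _ _ _
    obtain ⟨n, hn⟩ : ∃ n, K.index = n := ⟨_, rfl⟩
    have h3 := Subgroup.index_dvd_of_le (hKM (n + 1 + 1))
    have h4 := Nat.le_of_dvd (Nat.pos_of_ne_zero h1) h3
    have h5 := h2 (n + 1)
    rw [hn] at h4
    omega
  · -- dichotomy
    intro H hH
    obtain ⟨S, hSH⟩ := hH
    let S' : Finset F6 := S.image (fun s => (hq s).choose)
    have hS' : (Subgroup.closure (S' : Set F6)).map q = H := by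
      rw [MonoidHom.map_closure, ← hSH]
      congr 1
      ext s
      simp only [S', Finset.coe_image, Set.mem_image, Finset.mem_coe]
      constructor
      · rintro ⟨_, ⟨s', hs', rfl⟩, rfl⟩
        rw [(hq s').choose_spec]
        exact hs'
      · intro hs
        exact ⟨_, ⟨s, hs, rfl⟩, (hq s).choose_spec⟩
    obtain ⟨k, hk⟩ := htask (S', 1)
    have h1 := hSt (a k) (task k).1 (task k).2 k
    rw [← ha, hk] at h1
    rcases h1 with h1 | h1
    · right
      have h2 : (Subgroup.closure (S' : Set F6) ⊔ K).FiniteIndex := by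
        have := h1
        exact Subgroup.finiteIndex_of_le (sup_le_sup_left (hNK (k + 1)) _)
      have h3 : (Subgroup.closure (S' : Set F6) ⊔ K).map q = H := by
        rw [Subgroup.map_sup, hS']
        have h4 : K.map q = ⊥ := by
          rw [Subgroup.map_eq_bot_iff, hker]
        rw [h4, sup_bot_eq]
      refine ⟨?_⟩
      rw [← h3, hmapidx _ le_sup_right]
      exact h2.index_ne_zero
    · left
      have h2 : K.relIndex (Subgroup.closure (S' : Set F6)) ≠ 0 := fun h3 =>
        h1 (Subgroup.relIndex_eq_zero_of_le_left (hNK (k + 1)) h3)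
      have h3 : Nat.card H ≠ 0 := by
        have h4 := Subgroup.relIndex_ker (K := Subgroup.closure (S' : Set F6)) q
        rw [hker, hS'] at h4
        rw [← h4]
        exact h2
      exact (Nat.card_ne_zero.1 h3).2
  · -- torsion
    intro g
    obtain ⟨f, rfl⟩ := hq g
    obtain ⟨k, hk⟩ := htask (∅, f)
    have h1 := hTo (a k) (task k).1 (task k).2 k
    rw [← ha, hk] at h1
    obtain ⟨j, hj⟩ := h1
    rw [isOfFinOrder_iff_pow_eq_one]
    refine ⟨29 ^ j, by positivity, ?_⟩
    rw [← map_pow, ← MonoidHom.mem_ker, hker]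
    exact hNK (k + 1) hj
  · refine ⟨fun k => (a k).M.map q, ?_, ?_, ?_, ?_⟩
    · intro i j hij
      exact Subgroup.map_mono (hManti hij)
    · intro k
      exact (hMn k).map q hq
    · intro k
      rw [hmapidx _ (hKM k)]
      exact (a k).Mi
    · rw [eq_bot_iff]
      intro x hx
      obtain ⟨f, rfl⟩ := hq x
      rw [Subgroup.mem_bot, ← MonoidHom.mem_ker, hker]
      change f ∈ ⨅ k, (a k).M
      rw [Subgroup.mem_iInf]
      intro k
      rw [Subgroup.mem_iInf] at hx
      obtain ⟨f', hf', hff⟩ := hx k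
      have h1 : f'⁻¹ * f ∈ K := by
        rw [← hker, MonoidHom.mem_ker, map_mul, map_inv, hff, inv_mul_cancel]
      have h2 := (a k).M.mul_mem hf' (hKM k h1)
      rwa [mul_inv_cancel_left] at h2

end Pool.Agent.Helper94_DC
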