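import Pool.Agent.Helper94_DC.Gap

set_option autoImplicit false

/-!
The Bernoulli orbit relation of a Kazhdan group has no nontrivial homomorphism to the orbit
relation of a locally finite group.
-/

namespace Pool.Agent.Helper94_DC

open MeasureTheory Filter Pool.Agent.Helper95_DC
open scoped ENNReal

variable {G : Type} [Group G]

/-- A probability measure on the line none of whose half lines has measure in `[1/4, 3/4]` has
an atom. -/
theorem exists_atom (ν : Measure ℝ) [IsProbabilityMeasure ν]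
    (h : ∀ t, ¬ (1 / 4 ≤ ν.real (Set.Iic t) ∧ ν.real (Set.Iic t) ≤ 3 / 4)) :
    ∃ r, ν {r} ≠ 0 := by
  set F := ProbabilityTheory.cdf ν with hF
  have hFr : ∀ t, F t = ν.real (Set.Iic t) := fun t => ProbabilityTheory.cdf_eq_real ν t
  set T : Set ℝ := {t | 3 / 4 ≤ F t} with hT
  have hne : T.Nonempty := by
    have h1 := (ProbabilityTheory.tendsto_cdf_atTop ν).eventually
      (lt_mem_nhds (show (3 / 4 : ℝ) < 1 by norm_num))
    obtain ⟨t, ht⟩ := h1.exists
    exact ⟨t, ht.le⟩
  have hbdd : BddBelow T := by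
    have h1 := (ProbabilityTheory.tendsto_cdf_atBot ν).eventually
      (gt_mem_nhds (show (0 : ℝ) < 1 / 4 by norm_num))
    obtain ⟨t, ht⟩ := h1.exists
    refine ⟨t, fun u hu => ?_⟩
    by_contra h2
    push Not at h2
    have h3 : F u ≤ F t := F.mono h2.le
    have h4 : 3 / 4 ≤ F u := hu
    have h5 : F t < 1 / 4 := ht
    linarith
  set t₀ := sInf T with ht₀
  have h1 : 3 / 4 ≤ F t₀ := by
    rw [← F.iInf_Ioi_eq t₀]
    refine le_ciInf (fun r => ?_)
    obtain ⟨u, hu, hur⟩ := exists_lt_of_csInf_lt hne r.2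
    exact le_trans hu (F.mono hur.le)
  have h2 : ∀ t, t < t₀ → F t < 1 / 4 := by
    intro t ht
    have h3 : F t < 3 / 4 := by
      by_contra h4
      push Not at h4
      exact absurd (csInf_le hbdd h4) (not_le.2 ht)
    by_contra h4
    push Not at h4
    rw [hFr] at h3 h4
    exact h t ⟨h4, h3.le⟩
  have h3 : Function.leftLim F t₀ ≤ 1 / 4 := by
    rw [F.mono.leftLim_eq_sSup]
    · refine csSup_le ?_ ?_
      · exact ⟨F (t₀ - 1), t₀ - 1, by simp, rfl⟩
      · rintro _ ⟨u, hu, rfl⟩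
        exact (h2 u hu).le
  refine ⟨t₀, ?_⟩
  have h4 : ν {t₀} = F.measure {t₀} := by rw [hF, ProbabilityTheory.measure_cdf]
  rw [h4, F.measure_singleton]
  intro h5
  rw [ENNReal.ofReal_eq_zero] at h5
  linarith

theorem locf_of (hM : MixStatement) : LocfStatement := by
  intro G _ _ _ S C hC hK N hN Y _ _ _ hY f hf hfN
  classical
  obtain ⟨hmix1, hmix2, hmix3⟩ := hM
  set s := bX G with hs
  have herg : s.Erg := hmix3 G _ s (hmix1 G _ _)
  obtain ⟨e, he⟩ := exists_surjective_nat N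
  let Nk : ℕ → Subgroup G := fun k => Subgroup.closure ((fun i => (e i : G)) '' Set.Iic k)
  have hNle : ∀ k, Nk k ≤ N := by
    intro k
    rw [Subgroup.closure_le]
    rintro _ ⟨i, -, rfl⟩
    exact (e i).2
  have hNfin : ∀ k, Finite (Nk k) := by
    intro k
    refine hN _ (hNle k) ?_
    rw [Subgroup.fg_iff]
    exact ⟨_, rfl, (Set.finite_Iic k).image _⟩
  have hNmono : Monotone Nk := by
    intro i j hij
    exact Subgroup.closure_mono (Set.image_mono (Set.Iic_subset_Iic.2 hij))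
  have hNmem : ∀ n ∈ N, ∃ k, n ∈ Nk k := by
    intro n hn
    obtain ⟨i, hi⟩ := he ⟨n, hn⟩
    refine ⟨i, Subgroup.subset_closure ⟨i, Set.mem_Iic.2 le_rfl, ?_⟩⟩
    change (e i : G) = n
    rw [hi]
  -- the displacement events
  let D : G → ℕ → Set (X0 G) := fun g k => {x | ¬ ∃ n ∈ Nk k, f (s.T g x) = n • f x}
  have hTm : ∀ g, Measurable (s.T g) := fun g => (s.mp g).measurable
  have hDm : ∀ g k, MeasurableSet (D g k) := by
    intro g k
    have h1 : D g k = (⋃ n : G, ⋃ _ : n ∈ Nk k, {x | f (s.T g x) = n • f x})ᶜ := by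
      ext x
      simp [D]
    rw [h1]
    refine MeasurableSet.compl (MeasurableSet.iUnion (fun n => MeasurableSet.iUnion (fun _ => ?_)))
    exact measurableSet_eq_fun (hf.comp (hTm g)) ((hY n).comp hf)
  have hDlim : ∀ g, Tendsto (fun k => s.P (D g k)) atTop (nhds 0) := by
    intro g
    have h1 : s.P (⋂ k, D g k) = 0 := by
      have h2 := hfN g
      refine measure_mono_null ?_ h2
      intro x hx
      rw [Set.mem_iInter] at hx
      rintro ⟨n, hn, h3⟩
      obtain ⟨k, hk⟩ := hNmem n hn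
      exact hx k ⟨n, hk, h3⟩
    rw [← h1]
    refine tendsto_measure_iInter_atTop (fun k => (hDm g k).nullMeasurableSet) ?_
      ⟨0, measure_ne_top _ _⟩
    intro i j hij x hx
    rintro ⟨n, hn, h3⟩
    exact hx ⟨n, hNmono hij hn, h3⟩
  set δ : ℝ := 1 / (8 * (C ^ 2 + 1)) with hδ
  have hδ0 : 0 < δ := by positivity
  have hCδ : C ^ 2 * δ < 3 / 16 := by
    rw [hδ]
    rw [show C ^ 2 * (1 / (8 * (C ^ 2 + 1))) = (C ^ 2) / (8 * (C ^ 2 + 1)) by
      field_simp]
    rw [div_lt_div_iff₀ (by positivity) (by norm_num)]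
    nlinarith [sq_nonneg C]
  obtain ⟨k, hk⟩ : ∃ k, ∀ g ∈ S, s.P.real (D g k) ≤ δ := by
    have h1 : ∀ g ∈ S, ∀ᶠ k in atTop, s.P.real (D g k) ≤ δ := by
      intro g _
      have h2 : ∀ᶠ k in atTop, s.P (D g k) < ENNReal.ofReal δ :=
        (hDlim g).eventually (gt_mem_nhds (ENNReal.ofReal_pos.2 hδ0))
      filter_upwards [h2] with k h3
      rw [Measure.real]
      exact ENNReal.toReal_le_of_le_ofReal hδ0.le h3.le
    exact ((Finset.eventually_all S).2 h1).exists
  have := hNfin k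
  -- the invariant
  set ι := embeddingReal Y with hι
  have hιm : MeasurableEmbedding ι := measurableEmbedding_embeddingReal Y
  let κ : Y → ℝ := fun y => ⨅ n : Nk k, ι ((n : G) • y)
  have hκm : Measurable κ := Measurable.iInf (fun n => hιm.measurable.comp (hY n))
  have hκinv : ∀ n ∈ Nk k, ∀ y, κ (n • y) = κ y := by
    intro n hn y
    have h1 : (fun n' : Nk k => ι ((n' : G) • (n • y))) =
        (fun n' : Nk k => ι ((n' : G) • y)) ∘ (Equiv.mulRight (⟨n, hn⟩ : Nk k)) := by
      funext n'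
      simp [Equiv.mulRight, mul_smul]
    change (⨅ n' : Nk k, ι ((n' : G) • (n • y))) = ⨅ n' : Nk k, ι ((n' : G) • y)
    rw [h1]
    exact (Equiv.mulRight (⟨n, hn⟩ : Nk k)).iInf_comp (g := fun n' : Nk k => ι ((n' : G) • y))
  have hκinj : ∀ y y', κ y = κ y' → y ∈ MulAction.orbit G y' := by
    intro y y' h
    obtain ⟨n, hn⟩ := exists_eq_ciInf_of_finite (f := fun n : Nk k => ι ((n : G) • y))
    obtain ⟨n', hn'⟩ := exists_eq_ciInf_of_finite (f := fun n : Nk k => ι ((n : G) • y'))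
    have h1 : ι ((n : G) • y) = ι ((n' : G) • y') := by
      rw [hn, hn']
      exact h
    have h2 := hιm.injective h1
    refine ⟨(n : G)⁻¹ * n', ?_⟩
    change ((n : G)⁻¹ * n') • y' = y
    rw [mul_smul, ← h2, inv_smul_smul]
  -- level sets are almost invariant
  let ν : Measure ℝ := s.P.map (κ ∘ f)
  have hκf : Measurable (κ ∘ f) := hκm.comp hf
  have hν : IsProbabilityMeasure ν := Measure.isProbabilityMeasure_map hκf.aemeasurable
  have hatom : ∃ r, ν {r} ≠ 0 := by
    refine exists_atom ν (fun t ht => ?_)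
    have h1 : ν.real (Set.Iic t) = s.P.real ((κ ∘ f) ⁻¹' Set.Iic t) :=
      map_measureReal_apply hκf measurableSet_Iic
    rw [h1] at ht
    have h2 := gap G S C hC hK _ s herg ((κ ∘ f) ⁻¹' Set.Iic t) (hκf measurableSet_Iic) δ hδ0.le
      (fun g hg => by
        refine le_trans ?_ (hk g hg)
        refine measureReal_mono ?_
        intro x hx
        rintro ⟨n, hn, h3⟩
        apply hx
        change κ (f (s.T g x)) ≤ t ↔ κ (f x) ≤ t
        rw [h3, hκinv n hn])
    set p := s.P.real ((κ ∘ f) ⁻¹' Set.Iic t) with hp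
    have h3 : p * (1 - p) < 3 / 16 := lt_of_le_of_lt h2 hCδ
    nlinarith [ht.1, ht.2]
  obtain ⟨r, hr⟩ := hatom
  have h1 : ν {r} = s.P ((κ ∘ f) ⁻¹' {r}) := Measure.map_apply hκf (measurableSet_singleton r)
  rw [h1] at hr
  obtain ⟨x, hx⟩ := nonempty_of_measure_ne_zero hr
  refine ⟨f x, ?_⟩
  intro h0
  apply hr
  refine measure_mono_null ?_ h0
  intro x' hx'
  have h2 : κ (f x') = r := hx'
  have h3 : κ (f x) = r := hx
  exact hκinj _ _ (h2.trans h3.symm)

end Pool.Agent.Helper94_DC
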