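import Pool.Agent.Helper94_DC.Step

set_option autoImplicit false

/-!
Cocycle superrigidity of Bernoulli actions of Kazhdan groups.
-/

namespace Pool.Agent.Helper94_DC

open MeasureTheory Filter Pool.Agent.Helper95_DC
open scoped ENNReal

variable {G : Type} [Group G]

/-- Two independent copies of a countable valued random variable coincide with positive
probability. -/
theorem coincide_pos {Z K : Type} [MeasurableSpace Z] (ν : Measure Z) [IsProbabilityMeasure ν]
    [Countable K] [MeasurableSpace K] [MeasurableSingletonClass K] (f : Z → K)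
    : (ν.prod ν) {q | f q.1 = f q.2} ≠ 0 := by
  intro h0
  have h1 : ∀ k, ν (f ⁻¹' {k}) = 0 := by
    intro k
    have h2 : (f ⁻¹' {k}) ×ˢ (f ⁻¹' {k}) ⊆ {q : Z × Z | f q.1 = f q.2} := by
      rintro ⟨a, b⟩ ⟨ha, hb⟩
      have ha' : f a = k := ha
      have hb' : f b = k := hb
      change f a = f b
      rw [ha', hb']
    have h3 : (ν.prod ν) ((f ⁻¹' {k}) ×ˢ (f ⁻¹' {k})) = 0 := measure_mono_null h2 h0
    rw [Measure.prod_prod] at h3
    rcases mul_eq_zero.1 h3 with h4 | h4 <;> exact h4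
  have h2 : ν Set.univ = 0 := by
    have h3 : (Set.univ : Set Z) = ⋃ k, f ⁻¹' {k} := by
      ext z
      simp
    rw [h3]
    exact measure_iUnion_null h1
  rw [measure_univ] at h2
  exact one_ne_zero h2

/-- Transfer function along the whole path. -/
theorem transfer [Countable G] [Infinite G] [MeasurableSpace G] [DiscreteMeasurableSpace G]
    (hM : MixStatement) (hP : PathStatement) {S : Finset G} {C : ℝ} (hK : Kazhdan G S C)
    (c : G → X0 G → G) (hcm : ∀ g, Measurable (c g))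
    (hc : ∀ g h x, c (g * h) x = c g ((bX G).T h x) * c h x) :
    ∃ H : X0 G × Z0 G → G, Measurable H ∧ ∀ g, ∀ᵐ ω ∂((bX G).prod (bZ G)).P,
      H (((bX G).prod (bZ G)).T g ω) =
        c g ω.1 * H ω * (c g (fun k => (ω.2 k).1))⁻¹ := by
  classical
  obtain ⟨hmix1, hmix2, hmix3⟩ := hM
  obtain ⟨hp1, hp2, hp3, hp4, hp5⟩ := hP G
  set s := (bX G).prod (bZ G) with hs
  have herg : s.Erg := hmix3 G _ s (hmix2 G _ _ _ _ (hmix1 G _ _) (hmix1 G _ _))
  set δ : ℝ := 1 / (8 * (C ^ 2 + 1)) with hδ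
  have hδ0 : 0 < δ := by positivity
  have hCδ : C ^ 2 * (2 * δ) < 1 / 4 := by
    rw [hδ]
    rw [show C ^ 2 * (2 * (1 / (8 * (C ^ 2 + 1)))) = (C ^ 2) / (4 * (C ^ 2 + 1)) by
      field_simp; ring]
    rw [div_lt_div_iff₀ (by positivity) (by norm_num)]
    nlinarith [sq_nonneg C]
  -- a common modulus of continuity
  have hη : ∃ η : ℝ, 0 < η ∧ ∀ t t' : ℝ, |t - t'| ≤ η → ∀ g ∈ S,
      s.P.real {ω | c g (path t ω) ≠ c g (path t' ω)} ≤ δ := by
    have h1 : ∀ g : G, ∃ η : ℝ, 0 < η ∧ ∀ t t' : ℝ, |t - t'| ≤ η →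
        s.P.real {ω | c g (path t ω) ≠ c g (path t' ω)} ≤ δ :=
      fun g => hp5 G (c g) (fun k => hcm g (measurableSet_singleton k)) δ hδ0
    choose η hη0 hη using h1
    by_cases hS : S.Nonempty
    · refine ⟨S.inf' hS η, ?_, ?_⟩
      · rw [Finset.lt_inf'_iff]
        exact fun g _ => hη0 g
      · intro t t' htt g hg
        exact hη g t t' (htt.trans (Finset.inf'_le _ hg))
    · refine ⟨1, one_pos, ?_⟩
      intro t t' _ g hg
      exact absurd ⟨g, hg⟩ hS
  obtain ⟨η, hη0, hη⟩ := hη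
  obtain ⟨N, hN⟩ := exists_nat_gt (2 / η)
  have hN0 : (0 : ℝ) < N := lt_trans (by positivity) hN
  have hcoc : ∀ t g h ω, c (g * h) (path t ω) = c g (path t (s.T h ω)) * c h (path t ω) := by
    intro t g h ω
    rw [hc, hp2]
  have hpm : ∀ t, Measurable (path (G := G) t) := fun t => (hp1 t).measurable
  -- induction along the chain
  have key : ∀ i : ℕ, ∃ H : X0 G × Z0 G → G, Measurable H ∧ ∀ g, ∀ᵐ ω ∂s.P,
      H (s.T g ω) = c g (path 0 ω) * H ω * (c g (path (2 * i / N) ω))⁻¹ := by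
    intro i
    induction i with
    | zero =>
      refine ⟨fun _ => 1, measurable_const, fun g => Eventually.of_forall (fun ω => ?_)⟩
      simp
    | succ i ih =>
      obtain ⟨H, hHm, hH⟩ := ih
      have hdist : |2 * (i : ℝ) / N - 2 * ((i + 1 : ℕ) : ℝ) / N| ≤ η := by
        have h1 : 2 * (i : ℝ) / N - 2 * ((i + 1 : ℕ) : ℝ) / N = -(2 / N) := by
          push_cast
          ring
        rw [h1, abs_neg, abs_of_pos (by positivity)]
        rw [div_lt_iff₀ hη0] at hN
        rw [div_le_iff₀ hN0]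
        linarith
      obtain ⟨h, hhm, hh⟩ := one_step hK s herg (fun g ω => c g (path (2 * (i : ℝ) / N) ω))
        (fun g ω => c g (path (2 * ((i + 1 : ℕ) : ℝ) / N) ω))
        (fun g => (hcm g).comp (hpm _)) (fun g => (hcm g).comp (hpm _))
        (fun g h ω => hcoc _ g h ω) (fun g h ω => hcoc _ g h ω) hδ0.le hCδ
        (fun g hg => hη _ _ hdist g hg)
      refine ⟨fun ω => H ω * h ω, ?_, ?_⟩
      · have h1 : Measurable (fun q : G × G => q.1 * q.2) := Measurable.of_discrete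
        exact h1.comp (hHm.prodMk hhm)
      · intro g
        filter_upwards [hH g, hh g] with ω h1 h2
        rw [h1, h2]
        group
  obtain ⟨H, hHm, hH⟩ := key N
  refine ⟨H, hHm, fun g => ?_⟩
  filter_upwards [hH g] with ω h1
  rw [h1, hp3]
  have h2 : 2 * (N : ℝ) / N = 2 := by
    field_simp
  rw [h2, hp4]

/-- Removing the auxiliary variable. -/
theorem untwist [Countable G] [Infinite G] [MeasurableSpace G] [DiscreteMeasurableSpace G]
    (hM : MixStatement) (c : G → X0 G → G) (e : G → Z0 G → G)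
    (hc : ∀ g h x, c (g * h) x = c g ((bX G).T h x) * c h x)
    (H : X0 G × Z0 G → G) (hHm : Measurable H)
    (hH : ∀ g, ∀ᵐ ω ∂((bX G).prod (bZ G)).P,
      H (((bX G).prod (bZ G)).T g ω) = c g ω.1 * H ω * (e g ω.2)⁻¹) :
    ∃ (φ : X0 G → G) (π : G →* G), Measurable φ ∧
        ∀ g, ∀ᵐ x ∂(bX G).P, c g x = φ ((bX G).T g x) * π g * (φ x)⁻¹ := by
  classical
  obtain ⟨hmix1, hmix2, hmix3⟩ := hM
  set s := (bX G).prod (bZ G) with hs
  set XX := (bX G).prod (bX G) with hXX
  set ZZ := (bZ G).prod (bZ G) with hZZ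
  set s4 := XX.prod ZZ with hs4
  have herg : s4.Erg := hmix3 G _ s4 (hmix2 G _ _ _ _
    (hmix2 G _ _ _ _ (hmix1 G _ _) (hmix1 G _ _)) (hmix2 G _ _ _ _ (hmix1 G _ _) (hmix1 G _ _)))
  -- multiplication and inversion on `G` are measurable
  have hdiv : Measurable (fun q : G × G => q.1 * q.2⁻¹) := Measurable.of_discrete
  let k : (X0 G × X0 G) × Z0 G → G := fun q => H (q.1.1, q.2) * (H (q.1.2, q.2))⁻¹
  have hkm : Measurable k := by
    refine hdiv.comp ((hHm.comp ?_).prodMk (hHm.comp ?_))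
    · exact (measurable_fst.comp measurable_fst).prodMk measurable_snd
    · exact (measurable_snd.comp measurable_fst).prodMk measurable_snd
  -- projections of `(X × X) × Z` to `X × Z`
  have hpr1 : MeasurePreserving (fun q : (X0 G × X0 G) × Z0 G => (q.1.1, q.2))
      (XX.P.prod (bZ G).P) s.P := by
    have h1 : MeasurePreserving (Prod.fst : X0 G × X0 G → X0 G) XX.P (bX G).P :=
      measurePreserving_fst
    exact h1.prod (MeasurePreserving.id (bZ G).P)
  have hpr2 : MeasurePreserving (fun q : (X0 G × X0 G) × Z0 G => (q.1.2, q.2))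
      (XX.P.prod (bZ G).P) s.P := by
    have h1 : MeasurePreserving (Prod.snd : X0 G × X0 G → X0 G) XX.P (bX G).P :=
      measurePreserving_snd
    exact h1.prod (MeasurePreserving.id (bZ G).P)
  have hk : ∀ g, ∀ᵐ q ∂(XX.P.prod (bZ G).P), k (XX.T g q.1, (bZ G).T g q.2) =
      c g q.1.1 * k q * (c g q.1.2)⁻¹ := by
    intro g
    filter_upwards [hpr1.quasiMeasurePreserving.ae (hH g),
      hpr2.quasiMeasurePreserving.ae (hH g)] with q h1 h2
    change H ((bX G).T g q.1.1, (bZ G).T g q.2) * (H ((bX G).T g q.1.2, (bZ G).T g q.2))⁻¹ = _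
    have h1' : H ((bX G).T g q.1.1, (bZ G).T g q.2) = c g q.1.1 * H (q.1.1, q.2) *
        (e g q.2)⁻¹ := h1
    have h2' : H ((bX G).T g q.1.2, (bZ G).T g q.2) = c g q.1.2 * H (q.1.2, q.2) *
        (e g q.2)⁻¹ := h2
    rw [h1', h2']
    change _ = c g q.1.1 * (H (q.1.1, q.2) * (H (q.1.2, q.2))⁻¹) * (c g q.1.2)⁻¹
    group
  -- the event
  let E : Set ((X0 G × X0 G) × (Z0 G × Z0 G)) := {ω | k (ω.1, ω.2.1) = k (ω.1, ω.2.2)}
  have hm1 : Measurable (fun ω : (X0 G × X0 G) × (Z0 G × Z0 G) => (ω.1, ω.2.1)) :=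
    measurable_fst.prodMk (measurable_fst.comp measurable_snd)
  have hm2 : Measurable (fun ω : (X0 G × X0 G) × (Z0 G × Z0 G) => (ω.1, ω.2.2)) :=
    measurable_fst.prodMk (measurable_snd.comp measurable_snd)
  have hEm : MeasurableSet E := measurableSet_eq_fun (hkm.comp hm1) (hkm.comp hm2)
  have hq1 : MeasurePreserving (fun ω : (X0 G × X0 G) × (Z0 G × Z0 G) => (ω.1, ω.2.1))
      s4.P (XX.P.prod (bZ G).P) := by
    have h1 : MeasurePreserving (Prod.fst : Z0 G × Z0 G → Z0 G) ZZ.P (bZ G).P :=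
      measurePreserving_fst
    exact (MeasurePreserving.id XX.P).prod h1
  have hq2 : MeasurePreserving (fun ω : (X0 G × X0 G) × (Z0 G × Z0 G) => (ω.1, ω.2.2))
      s4.P (XX.P.prod (bZ G).P) := by
    have h1 : MeasurePreserving (Prod.snd : Z0 G × Z0 G → Z0 G) ZZ.P (bZ G).P :=
      measurePreserving_snd
    exact (MeasurePreserving.id XX.P).prod h1
  have hEinv : ∀ g, ∀ᵐ ω ∂s4.P, (s4.T g ω ∈ E ↔ ω ∈ E) := by
    intro g
    filter_upwards [hq1.quasiMeasurePreserving.ae (hk g),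
      hq2.quasiMeasurePreserving.ae (hk g)] with ω h1 h2
    change k (XX.T g ω.1, (bZ G).T g ω.2.1) = k (XX.T g ω.1, (bZ G).T g ω.2.2) ↔
      k (ω.1, ω.2.1) = k (ω.1, ω.2.2)
    have h1' : k (XX.T g ω.1, (bZ G).T g ω.2.1) =
      c g ω.1.1 * k (ω.1, ω.2.1) * (c g ω.1.2)⁻¹ := h1
    have h2' : k (XX.T g ω.1, (bZ G).T g ω.2.2) =
      c g ω.1.1 * k (ω.1, ω.2.2) * (c g ω.1.2)⁻¹ := h2
    rw [h1', h2']
    constructor
    · intro h3
      exact mul_left_cancel (mul_right_cancel h3)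
    · intro h3
      rw [h3]
  have hEpos : s4.P E ≠ 0 := by
    intro h0
    have h1 : (XX.P.prod ZZ.P) E = 0 := h0
    rw [Measure.measure_prod_null hEm] at h1
    have h2 : ∀ᵐ q ∂XX.P, False := by
      filter_upwards [h1] with q h3
      exact coincide_pos (bZ G).P (fun z => k (q, z)) h3
    have h3 := h2.exists
    obtain ⟨_, h3⟩ := h3
    exact h3
  have hEall := Erg.ae_of_pos herg hEm hEinv hEpos
  -- choose a good value of the auxiliary variable
  have hrot : MeasurePreserving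
      (fun q : Z0 G × ((X0 G × X0 G) × Z0 G) => (q.2.1, (q.2.2, q.1)))
      ((bZ G).P.prod (XX.P.prod (bZ G).P)) s4.P := by
    have h1 : MeasurePreserving (Prod.swap : Z0 G × ((X0 G × X0 G) × Z0 G) → _)
        ((bZ G).P.prod (XX.P.prod (bZ G).P)) ((XX.P.prod (bZ G).P).prod (bZ G).P) :=
      Measure.measurePreserving_swap
    have h2 := measurePreserving_prodAssoc XX.P (bZ G).P (bZ G).P
    exact h2.comp h1
  have h1 := Measure.ae_ae_of_ae_prod (hrot.quasiMeasurePreserving.ae hEall)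
  obtain ⟨z₀, hz₀⟩ := h1.exists
  let φ : X0 G → G := fun x => H (x, z₀)
  have hφm : Measurable φ := hHm.comp (measurable_id.prodMk measurable_const)
  have hφ : ∀ᵐ q ∂(XX.P.prod (bZ G).P), k q = φ q.1.1 * (φ q.1.2)⁻¹ := by
    filter_upwards [hz₀] with q h2
    exact h2
  have hTm : ∀ g, MeasurePreserving (fun q : (X0 G × X0 G) × Z0 G => (XX.T g q.1, (bZ G).T g q.2))
      (XX.P.prod (bZ G).P) (XX.P.prod (bZ G).P) := fun g => (XX.mp g).prod ((bZ G).mp g)
  -- the untwisted cocycle is constant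
  let u : G → X0 G → G := fun g x => (φ ((bX G).T g x))⁻¹ * c g x * φ x
  have hu : ∀ g, ∀ᵐ q ∂XX.P, u g q.1 = u g q.2 := by
    intro g
    have h2 : ∀ᵐ q ∂(XX.P.prod (bZ G).P), u g q.1.1 = u g q.1.2 := by
      filter_upwards [hφ, (hTm g).quasiMeasurePreserving.ae hφ, hk g] with q h3 h4 h5
      have h4' : k (XX.T g q.1, (bZ G).T g q.2) =
        φ ((bX G).T g q.1.1) * (φ ((bX G).T g q.1.2))⁻¹ := h4
      rw [h4', h3] at h5
      change (φ ((bX G).T g q.1.1))⁻¹ * c g q.1.1 * φ q.1.1 =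
        (φ ((bX G).T g q.1.2))⁻¹ * c g q.1.2 * φ q.1.2
      have h6 : c g q.1.1 * φ q.1.1 = φ ((bX G).T g q.1.1) * (φ ((bX G).T g q.1.2))⁻¹ *
          c g q.1.2 * φ q.1.2 := by
        rw [h5]
        group
      rw [mul_assoc, h6]
      group
    have h3 := Measure.ae_ae_of_ae_prod h2
    filter_upwards [h3] with q h4
    obtain ⟨_, h5⟩ := h4.exists
    exact h5
  have hpi : ∀ g, ∃ γ : G, ∀ᵐ x ∂(bX G).P, u g x = γ := by
    intro g
    have h2 := Measure.ae_ae_of_ae_prod (hu g)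
    obtain ⟨x, hx⟩ := h2.exists
    refine ⟨u g x, ?_⟩
    filter_upwards [hx] with y hy
    exact hy.symm
  choose π hπ using hpi
  have hπmul : ∀ g h, π (g * h) = π g * π h := by
    intro g h
    have h1 := ((bX G).mp h).quasiMeasurePreserving.ae (hπ g)
    obtain ⟨x, h2, h3, h4⟩ := ((hπ (g * h)).and (h1.and (hπ h))).exists
    rw [← h2, ← h3, ← h4]
    change (φ ((bX G).T (g * h) x))⁻¹ * c (g * h) x * φ x =
      (φ ((bX G).T g ((bX G).T h x)))⁻¹ * c g ((bX G).T h x) * φ ((bX G).T h x) *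
        ((φ ((bX G).T h x))⁻¹ * c h x * φ x)
    rw [hc, (bX G).T_mul]
    group
  refine ⟨φ, MonoidHom.mk' π hπmul, hφm, fun g => ?_⟩
  filter_upwards [hπ g] with x hx
  rw [MonoidHom.mk'_apply, ← hx]
  change _ = φ ((bX G).T g x) * ((φ ((bX G).T g x))⁻¹ * c g x * φ x) * (φ x)⁻¹
  group

/-- Cocycle superrigidity, from the mixing and path modules. -/
theorem sr_of (hM : MixStatement) (hP : PathStatement) : SRStatement := by
  intro G _ _ _ S C _ hK c hcm hc
  let _ : MeasurableSpace G := ⊤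
  have _ : DiscreteMeasurableSpace G := ⟨fun _ => trivial⟩
  have hcm' : ∀ g, Measurable (c g) := fun g => measurable_to_countable' (fun k => hcm g k)
  obtain ⟨H, hHm, hH⟩ := transfer hM hP hK c hcm' hc
  obtain ⟨φ, π, hφ, h⟩ := untwist hM c (fun g z => c g (fun k => (z k).1)) hc H hHm hH
  exact ⟨φ, π, fun k => hφ (measurableSet_singleton k), h⟩

end Pool.Agent.Helper94_DC
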