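import Pool.Agent.Helper94_DC.Gap

set_option autoImplicit false

/-!
A homomorphism from the Bernoulli orbit relation of a Kazhdan group to the conjugation action on
a profinite space of subgroups takes values in a single orbit.
-/

namespace Pool.Agent.Helper94_DC

open MeasureTheory Filter Pool.Agent.Helper95_DC
open scoped ENNReal

variable {G : Type} [Group G]

/-- Measurable choice from a countable family of measurable sets. -/
theorem exists_measurable_choice {Ω K : Type} [MeasurableSpace Ω] [Countable K] [Nonempty K]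
    (Q : K → Set Ω) (hQ : ∀ k, MeasurableSet (Q k)) :
    ∃ f : Ω → K, (∀ k, MeasurableSet {ω | f ω = k}) ∧ ∀ ω, (∃ k, ω ∈ Q k) → ω ∈ Q (f ω) := by
  classical
  obtain ⟨e, he⟩ := exists_surjective_nat K
  let n : Ω → ℕ := fun ω => if h : ∃ n, ω ∈ Q (e n) then Nat.find h else 0
  have hn : ∀ m, MeasurableSet {ω | n ω = m} := by
    intro m
    have h1 : {ω | n ω = m} = (Q (e m) ∩ ⋂ i ∈ Finset.range m, (Q (e i))ᶜ) ∪
        ((⋂ i, (Q (e i))ᶜ) ∩ {_ω | m = 0}) := by
      ext ω
      simp only [Set.mem_ofPred_eq, Set.mem_union, Set.mem_inter_iff, Set.mem_iInter,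
        Finset.mem_range, Set.mem_compl_iff]
      by_cases h : ∃ n, ω ∈ Q (e n)
      · have h2 : n ω = Nat.find h := dif_pos h
        rw [h2]
        constructor
        · intro h3
          left
          rw [← h3]
          exact ⟨Nat.find_spec h, fun i hi => Nat.find_min h hi⟩
        · rintro (⟨h3, h4⟩ | ⟨h3, -⟩)
          · exact (Nat.find_eq_iff h).2 ⟨h3, h4⟩
          · obtain ⟨k, hk⟩ := h
            exact absurd hk (h3 k)
      · have h2 : n ω = 0 := dif_neg h
        push Not at h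
        rw [h2]
        constructor
        · intro h3
          right
          exact ⟨h, h3.symm⟩
        · rintro (⟨h3, -⟩ | ⟨-, h3⟩)
          · exact absurd h3 (h m)
          · exact h3.symm
    rw [h1]
    refine MeasurableSet.union ((hQ _).inter ?_) (MeasurableSet.inter ?_ ?_)
    · exact MeasurableSet.biInter (Finset.range m).countable_toSet (fun i _ => (hQ _).compl)
    · exact MeasurableSet.iInter (fun i => (hQ _).compl)
    · by_cases hm : m = 0 <;> simp [hm]
  refine ⟨fun ω => e (n ω), ?_, ?_⟩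
  · intro k
    have h1 : {ω | e (n ω) = k} = ⋃ m : ℕ, ({ω | n ω = m} ∩ {_ω | e m = k}) := by
      ext ω
      simp only [Set.mem_ofPred_eq, Set.mem_iUnion, Set.mem_inter_iff]
      constructor
      · intro h
        exact ⟨n ω, rfl, h⟩
      · rintro ⟨m, h2, h3⟩
        rw [h2]
        exact h3
    rw [h1]
    refine MeasurableSet.iUnion (fun m => (hn m).inter ?_)
    by_cases hm : e m = k <;> simp [hm]
  · rintro ω ⟨k, hk⟩
    obtain ⟨i, rfl⟩ := he k
    have h : ∃ n, ω ∈ Q (e n) := ⟨i, hk⟩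
    have h2 : n ω = Nat.find h := dif_pos h
    change ω ∈ Q (e (n ω))
    rw [h2]
    exact Nat.find_spec h

theorem finite_above (V : Subgroup G) (hn : V.Normal) (hf : V.FiniteIndex) :
    Finite {H : Subgroup G // V ≤ H} := by
  have : Finite (Subgroup (G ⧸ V)) := inferInstance
  refine Finite.of_injective (fun H : {H : Subgroup G // V ≤ H} =>
    H.1.map (QuotientGroup.mk' V)) ?_
  rintro ⟨H, hH⟩ ⟨H', hH'⟩ h
  have h1 : H.map (QuotientGroup.mk' V) = H'.map (QuotientGroup.mk' V) := h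
  have h2 := congrArg (Subgroup.comap (QuotientGroup.mk' V)) h1
  rw [Subgroup.comap_map_eq, Subgroup.comap_map_eq, QuotientGroup.ker_mk',
    sup_eq_left.2 hH, sup_eq_left.2 hH'] at h2
  exact Subtype.ext h2

/-- Conjugacy of sequences of subgroups. -/
def Rel (ψ : ℕ → X0 G → Subgroup G) (x y : X0 G) : Prop :=
  ∃ γ : G, ∀ j h, h ∈ ψ j x ↔ γ⁻¹ * h * γ ∈ ψ j y

theorem Rel.symm {ψ : ℕ → X0 G → Subgroup G} {x y : X0 G} (h : Rel ψ x y) : Rel ψ y x := by
  obtain ⟨γ, hγ⟩ := h
  refine ⟨γ⁻¹, fun j h => ?_⟩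
  have h1 := hγ j (γ⁻¹⁻¹ * h * γ⁻¹)
  have h2 : γ⁻¹ * (γ⁻¹⁻¹ * h * γ⁻¹) * γ = h := by group
  rw [h2] at h1
  exact h1.symm

theorem Rel.trans {ψ : ℕ → X0 G → Subgroup G} {x y z : X0 G} (h : Rel ψ x y) (h' : Rel ψ y z) :
    Rel ψ x z := by
  obtain ⟨γ, hγ⟩ := h
  obtain ⟨γ', hγ'⟩ := h'
  refine ⟨γ * γ', fun j h => ?_⟩
  rw [hγ, hγ']
  have h1 : (γ * γ')⁻¹ * h * (γ * γ') = γ'⁻¹ * (γ⁻¹ * h * γ) * γ' := by group
  rw [h1]

/-- From the mixing and path modules. -/
theorem stab_of (hM : MixStatement) (hP : PathStatement) : StabStatement := by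
  intro G _ _ _ S C hC hK V hVa hVn hVf ψ hV hψ hψm c hcm hc A hA
  classical
  obtain ⟨hmix1, hmix2, hmix3⟩ := hM
  obtain ⟨hp1, hp2, hp3, hp4, hp5⟩ := hP G
  set s := (bX G).prod (bZ G) with hs
  have herg : s.Erg := hmix3 G _ s (hmix2 G _ _ _ _ (hmix1 G _ _) (hmix1 G _ _))
  have hpm : ∀ t, Measurable (path (G := G) t) := fun t => (hp1 t).measurable
  have hfin : ∀ j, Finite {H : Subgroup G // V j ≤ H} := fun j =>
    finite_above (V j) (hVn j) (hVf j)
  -- measurability of events about `ψ`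
  have hmem : ∀ j h, MeasurableSet {x | h ∈ ψ j x} := by
    intro j h
    have := hfin j
    have h1 : {x | h ∈ ψ j x} = ⋃ L : {H : Subgroup G // V j ≤ H},
        ({x | ψ j x = L.1} ∩ {_x | h ∈ L.1}) := by
      ext x
      simp only [Set.mem_ofPred_eq, Set.mem_iUnion, Set.mem_inter_iff]
      constructor
      · intro h2
        exact ⟨⟨ψ j x, hV j x⟩, rfl, h2⟩
      · rintro ⟨L, h2, h3⟩
        rw [h2]
        exact h3
    rw [h1]
    refine MeasurableSet.iUnion (fun L => (hψm j L.1).inter ?_)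
    by_cases hL : h ∈ L.1 <;> simp [hL]
  have hiff : ∀ {Ω : Type} [MeasurableSpace Ω] (B B' : Set Ω), MeasurableSet B →
      MeasurableSet B' → MeasurableSet {ω | ω ∈ B ↔ ω ∈ B'} := by
    intro Ω _ B B' hB hB'
    have h1 : {ω | ω ∈ B ↔ ω ∈ B'} = (symmDiff B B')ᶜ := by
      ext ω
      simp only [Set.mem_ofPred_eq, Set.mem_compl_iff, Set.mem_symmDiff]
      tauto
    rw [h1]
    exact (hB.symmDiff hB').compl
  have hevent : ∀ (γ : G) (f f' : X0 G × Z0 G → X0 G), Measurable f → Measurable f' →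
      MeasurableSet {ω | ∀ j h, h ∈ ψ j (f ω) ↔ γ⁻¹ * h * γ ∈ ψ j (f' ω)} := by
    intro γ f f' hf hf'
    simp only [Set.ofPred_forall]
    refine MeasurableSet.iInter (fun j => MeasurableSet.iInter (fun h => ?_))
    exact hiff _ _ (hf (hmem j h)) (hf' (hmem j _))
  have hRel : ∀ t t', MeasurableSet {ω : X0 G × Z0 G | Rel ψ (path t ω) (path t' ω)} := by
    intro t t'
    have h1 : {ω : X0 G × Z0 G | Rel ψ (path t ω) (path t' ω)} =
        ⋃ γ : G, {ω | ∀ j h, h ∈ ψ j (path t ω) ↔ γ⁻¹ * h * γ ∈ ψ j (path t' ω)} := by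
      ext ω
      simp [Rel]
    rw [h1]
    exact MeasurableSet.iUnion (fun γ => hevent γ _ _ (hpm t) (hpm t'))
  have hT : ∀ t g, ∀ᵐ ω ∂s.P, Rel ψ (path t (s.T g ω)) (path t ω) := by
    intro t g
    filter_upwards [(hp1 t).quasiMeasurePreserving.ae (hc g)] with ω hω
    refine ⟨c g (path t ω), fun j h => ?_⟩
    rw [hp2]
    exact hω j h
  -- a common modulus of continuity
  set δ : ℝ := 1 / (8 * (C ^ 2 + 1)) with hδ
  have hδ0 : 0 < δ := by positivity
  have hCδ : C ^ 2 * δ < 3 / 16 := by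
    rw [hδ]
    rw [show C ^ 2 * (1 / (8 * (C ^ 2 + 1))) = (C ^ 2) / (8 * (C ^ 2 + 1)) by
      field_simp]
    rw [div_lt_div_iff₀ (by positivity) (by norm_num)]
    nlinarith [sq_nonneg C]
  have hη : ∃ η : ℝ, 0 < η ∧ ∀ t t' : ℝ, |t - t'| ≤ η → ∀ g ∈ S,
      s.P.real {ω | c g (path t ω) ≠ c g (path t' ω)} ≤ δ := by
    have h1 : ∀ g : G, ∃ η : ℝ, 0 < η ∧ ∀ t t' : ℝ, |t - t'| ≤ η →
        s.P.real {ω | c g (path t ω) ≠ c g (path t' ω)} ≤ δ :=
      fun g => hp5 G (c g) (fun k => hcm g k) δ hδ0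
    choose η hη0 hη using h1
    by_cases hS : S.Nonempty
    · refine ⟨S.inf' hS η, ?_, ?_⟩
      · rw [Finset.lt_inf'_iff]
        exact fun g _ => hη0 g
      · intro t t' htt g hg
        exact hη g t t' (htt.trans (Finset.inf'_le _ hg))
    · refine ⟨1, one_pos, ?_⟩
      intro t t' _ g hg
      exact absurd ⟨g, hg⟩ hS
  obtain ⟨η, hη0, hη⟩ := hη
  -- the coincidence events
  let Aj : ℕ → ℝ → ℝ → Set (X0 G × Z0 G) := fun j t t' =>
    {ω | ψ j (path t ω) = ψ j (path t' ω)}
  have hAm : ∀ j t t', MeasurableSet (Aj j t t') := by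
    intro j t t'
    have h1 : Aj j t t' = ⋂ h : G, {ω | h ∈ ψ j (path t ω) ↔ h ∈ ψ j (path t' ω)} := by
      ext ω
      simp only [Aj, Set.mem_ofPred_eq, Set.mem_iInter, SetLike.ext_iff]
    rw [h1]
    exact MeasurableSet.iInter (fun h => hiff _ _ ((hpm t) (hmem j h)) ((hpm t') (hmem j h)))
  have hgap : ∀ j t t', |t - t'| ≤ η →
      s.P.real (Aj j t t') * (1 - s.P.real (Aj j t t')) < 3 / 16 := by
    intro j t t' htt
    refine lt_of_le_of_lt (gap G S C hC hK _ s herg (Aj j t t') (hAm j t t') δ hδ0.le ?_) hCδ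
    intro g hg
    refine le_trans ?_ (hη t t' htt g hg)
    rw [Measure.real, Measure.real]
    refine ENNReal.toReal_mono (measure_ne_top _ _) (measure_mono_ae ?_)
    filter_upwards [(hp1 t).quasiMeasurePreserving.ae (hc g),
      (hp1 t').quasiMeasurePreserving.ae (hc g)] with ω h1 h2 h3
    have h3' : ¬ (s.T g ω ∈ Aj j t t' ↔ ω ∈ Aj j t t') := h3
    change c g (path t ω) ≠ c g (path t' ω)
    intro h4
    apply h3'
    simp only [Aj, Set.mem_ofPred_eq, SetLike.ext_iff, hp2]
    constructor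
    · intro h5 h
      have h6 := h5 (c g (path t ω) * h * (c g (path t ω))⁻¹)
      rw [h1 j, h2 j, ← h4] at h6
      have h7 : (c g (path t ω))⁻¹ * (c g (path t ω) * h * (c g (path t ω))⁻¹) *
        c g (path t ω) = h := by group
      rw [h7] at h6
      exact h6
    · intro h5 h
      rw [h1 j, h2 j, ← h4]
      exact h5 _
  -- intermediate value theorem
  have hbig : ∀ j t t', |t - t'| ≤ η → 3 / 4 < s.P.real (Aj j t t') := by
    intro j t t' htt
    have := hfin j
    have hcont : Continuous (fun u : ℝ => s.P.real (Aj j t u)) := by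
      rw [Metric.continuous_iff]
      intro u ε hε
      obtain ⟨η', hη'0, hη'⟩ := hp5 {H : Subgroup G // V j ≤ H} (fun x => ⟨ψ j x, hV j x⟩)
        (fun k => by
          have h1 : (fun x : X0 G => (⟨ψ j x, hV j x⟩ : {H : Subgroup G // V j ≤ H})) ⁻¹' {k} =
              {x | ψ j x = k.1} := by
            ext x
            simp [Subtype.ext_iff]
          rw [h1]
          exact hψm j k.1) (ε / 2) (half_pos hε)
      refine ⟨η', hη'0, fun u' hu' => ?_⟩
      have h1 : |u' - u| ≤ η' := by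
        rw [← Real.dist_eq]
        exact hu'.le
      have h2 := hη' u' u h1
      have h3 : ∀ a b : ℝ, Aj j t a ⊆ Aj j t b ∪ {ω | (⟨ψ j (path a ω), hV j (path a ω)⟩ :
          {H : Subgroup G // V j ≤ H}) ≠ ⟨ψ j (path b ω), hV j (path b ω)⟩} := by
        intro a b ω hω
        have hω' : ψ j (path t ω) = ψ j (path a ω) := hω
        by_cases h4 : ψ j (path a ω) = ψ j (path b ω)
        · left
          change ψ j (path t ω) = ψ j (path b ω)
          rw [hω', h4]
        · right
          intro h5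
          exact h4 (Subtype.ext_iff.1 h5)
      have h4 : ∀ a b : ℝ, s.P.real (Aj j t a) ≤ s.P.real (Aj j t b) +
          s.P.real {ω | (⟨ψ j (path a ω), hV j (path a ω)⟩ :
          {H : Subgroup G // V j ≤ H}) ≠ ⟨ψ j (path b ω), hV j (path b ω)⟩} := fun a b =>
        (measureReal_mono (h3 a b)).trans (measureReal_union_le _ _)
      have h5 := h4 u' u
      have h6 := h4 u u'
      have h7 : {ω | (⟨ψ j (path u ω), hV j (path u ω)⟩ :
          {H : Subgroup G // V j ≤ H}) ≠ ⟨ψ j (path u' ω), hV j (path u' ω)⟩} =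
          {ω | (⟨ψ j (path u' ω), hV j (path u' ω)⟩ :
          {H : Subgroup G // V j ≤ H}) ≠ ⟨ψ j (path u ω), hV j (path u ω)⟩} := by
        ext ω
        exact ne_comm
      rw [h7] at h6
      rw [Real.dist_eq, abs_lt]
      constructor <;> linarith
    by_contra hcon
    push Not at hcon
    have h1 : s.P.real (Aj j t t) = 1 := by
      have h2 : Aj j t t = Set.univ := by
        ext ω
        simp [Aj]
      rw [h2, probReal_univ]
    have h2 : (3 / 4 : ℝ) ∈ Set.uIcc (s.P.real (Aj j t t')) (s.P.real (Aj j t t)) := by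
      rw [Set.uIcc_of_le (by rw [h1]; exact measureReal_le_one), h1]
      exact ⟨hcon, by norm_num⟩
    obtain ⟨u, hu, hu2⟩ := intermediate_value_uIcc (hcont.continuousOn (s := Set.uIcc t' t)) h2
    have h3 : |t - u| ≤ η := by
      refine le_trans ?_ htt
      exact Set.abs_sub_right_of_mem_uIcc hu
    have h4 := hgap j t u h3
    have h5 : s.P.real (Aj j t u) = 3 / 4 := hu2
    rw [h5] at h4
    norm_num at h4
  have hanti : ∀ t t', Antitone (fun j => Aj j t t') := by
    intro t t' i j hij ω hω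
    have hω' : ψ j (path t ω) = ψ j (path t' ω) := hω
    change ψ i (path t ω) = ψ i (path t' ω)
    rw [hψ i j _ hij, hψ i j _ hij, hω']
  have hstep : ∀ t t', |t - t'| ≤ η → ∀ᵐ ω ∂s.P, Rel ψ (path t ω) (path t' ω) := by
    intro t t' htt
    refine Erg.ae_of_pos herg (hRel t t') ?_ ?_
    · intro g
      filter_upwards [hT t g, hT t' g] with ω h1 h2
      constructor
      · intro h3
        exact (h1.symm.trans h3).trans h2
      · intro h3
        exact (h1.trans h3).trans h2.symm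
    · intro h0
      have h1 : s.P (⋂ j, Aj j t t') = 0 := by
        refine measure_mono_null ?_ h0
        intro ω hω
        rw [Set.mem_iInter] at hω
        refine ⟨1, fun j h => ?_⟩
        have h2 : ψ j (path t ω) = ψ j (path t' ω) := hω j
        rw [h2]
        simp
      have h2 : Tendsto (fun j => s.P (Aj j t t')) atTop (nhds 0) := by
        rw [← h1]
        exact tendsto_measure_iInter_atTop (fun j => (hAm j t t').nullMeasurableSet)
          (hanti t t') ⟨0, measure_ne_top _ _⟩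
      have h3 : ENNReal.ofReal (3 / 4) ≤ 0 := by
        refine ge_of_tendsto h2 (Eventually.of_forall (fun j => ?_))
        rw [← ENNReal.ofReal_toReal (measure_ne_top s.P (Aj j t t'))]
        exact ENNReal.ofReal_le_ofReal (hbig j t t' htt).le
      rw [nonpos_iff_eq_zero, ENNReal.ofReal_eq_zero] at h3
      norm_num at h3
  -- chain
  obtain ⟨N, hN⟩ := exists_nat_gt (2 / η)
  have hN0 : (0 : ℝ) < N := lt_trans (by positivity) hN
  have key : ∀ i : ℕ, ∀ᵐ ω ∂s.P, Rel ψ (path 0 ω) (path (2 * (i : ℝ) / N) ω) := by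
    intro i
    induction i with
    | zero =>
      refine Eventually.of_forall (fun ω => ⟨1, fun j h => ?_⟩)
      simp
    | succ i ih =>
      have hdist : |2 * (i : ℝ) / N - 2 * ((i + 1 : ℕ) : ℝ) / N| ≤ η := by
        have h1 : 2 * (i : ℝ) / N - 2 * ((i + 1 : ℕ) : ℝ) / N = -(2 / N) := by
          push_cast
          ring
        rw [h1, abs_neg, abs_of_pos (by positivity)]
        rw [div_lt_iff₀ hη0] at hN
        rw [div_le_iff₀ hN0]
        linarith
      filter_upwards [ih, hstep _ _ hdist] with ω h1 h2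
      exact h1.trans h2
  have hfinal : ∀ᵐ ω ∂s.P, Rel ψ ω.1 (path 2 ω) ∧ path 2 ω ∈ A := by
    filter_upwards [key N, (hp1 2).quasiMeasurePreserving.ae hA] with ω h1 h2
    have h3 : 2 * (N : ℝ) / N = 2 := by
      field_simp
    rw [h3, hp3] at h1
    exact ⟨h1, h2⟩
  have hswap : MeasurePreserving (Prod.swap : Z0 G × X0 G → X0 G × Z0 G)
      ((bZ G).P.prod (bX G).P) ((bX G).P.prod (bZ G).P) := Measure.measurePreserving_swap
  have h1 := Measure.ae_ae_of_ae_prod (hswap.quasiMeasurePreserving.ae hfinal)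
  obtain ⟨z, hz⟩ := h1.exists
  have hz' : ∀ᵐ x ∂(bX G).P, Rel ψ x (fun g => (z g).1) ∧ (fun g => (z g).1) ∈ A := by
    filter_upwards [hz] with x hx
    have h2 : path 2 (x, z) = fun g => (z g).1 := hp4 (x, z)
    have hx' : Rel ψ x (path 2 (x, z)) ∧ path 2 (x, z) ∈ A := hx
    rw [h2] at hx'
    exact hx'
  obtain ⟨-, -, hx₀A⟩ := hz'.exists
  refine ⟨fun g => (z g).1, hx₀A, ?_⟩
  obtain ⟨γ, hγm, hγ⟩ := exists_measurable_choice
    (fun γ : G => {x : X0 G | ∀ j h, h ∈ ψ j (fun g => (z g).1) ↔ γ⁻¹ * h * γ ∈ ψ j x})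
    (fun γ => by
      simp only [Set.ofPred_forall]
      refine MeasurableSet.iInter (fun j => MeasurableSet.iInter (fun h => ?_))
      by_cases hh : h ∈ ψ j (fun g => (z g).1)
      · simp only [hh, true_iff]
        exact hmem j _
      · simp only [hh, false_iff]
        exact (hmem j _).compl)
  refine ⟨γ, hγm, ?_⟩
  filter_upwards [hz'] with x hx
  obtain ⟨k, hk⟩ := hx.1.symm
  exact hγ x ⟨k, hk⟩

end Pool.Agent.Helper94_DC
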