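import Pool.Agent.Helper94_DC.Gap

set_option autoImplicit false

/-!
Two cocycles of an ergodic system of a Kazhdan group which are close on a Kazhdan set are
cohomologous.
-/

namespace Pool.Agent.Helper94_DC

open MeasureTheory Filter Pool.Agent.Helper95_DC
open scoped ENNReal

variable {G : Type} [Group G]

/-- Displacement of an indicator function under the Koopman representation. -/
theorem koop_indicator {M : Type} [MeasurableSpace M] (m : Measure M) (U : G → M → M)
    (U_one : ∀ x, U 1 x = x) (U_mul : ∀ g h x, U (g * h) x = U g (U h x))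
    (mp : ∀ g, MeasurePreserving (U g) m m) (D : Set M) (hD : MeasurableSet D) (hm : m D ≠ ∞)
    (g : G) :
    ENNReal.ofReal (‖koop m U U_one U_mul mp g
        ((memLp_indicator_const 2 hD (1 : ℝ) (Or.inr hm)).toLp _) -
        ((memLp_indicator_const 2 hD (1 : ℝ) (Or.inr hm)).toLp _)‖ ^ 2) =
      m {x | ¬ (U g x ∈ D ↔ x ∈ D)} := by
  classical
  have hmem := memLp_indicator_const 2 hD (1 : ℝ) (Or.inr hm : (1 : ℝ) = 0 ∨ m D ≠ ∞)
  set v : Lp ℝ 2 m := hmem.toLp _ with hv
  have hvc : v =ᵐ[m] D.indicator (fun _ => (1 : ℝ)) := hmem.coeFn_toLp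
  set B : Set M := {x | ¬ (U g x ∈ D ↔ x ∈ D)} with hB
  have hBm : MeasurableSet B := by
    have h2 : B = symmDiff (U g ⁻¹' D) D := by
      ext x
      simp only [hB, Set.mem_ofPred_eq, Set.mem_symmDiff, Set.mem_preimage]
      tauto
    rw [h2]
    exact ((mp g).measurable hD).symmDiff hD
  have h2 : ∀ᵐ x ∂m, (koop m U U_one U_mul mp g v) x - v x =
      (U g⁻¹ ⁻¹' D).indicator (fun _ => (1 : ℝ)) x - D.indicator (fun _ => (1 : ℝ)) x := by
    have h3 := koop_coe m U U_one U_mul mp g v
    have h4 := (mp g⁻¹).quasiMeasurePreserving.ae hvc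
    filter_upwards [h3, h4, hvc] with x h3 h4 h5
    rw [h3, Function.comp_apply, h4, h5]
    rfl
  have hmeas : Measurable (fun x => (U g⁻¹ ⁻¹' D).indicator (fun _ => (1 : ℝ)) x -
      D.indicator (fun _ => (1 : ℝ)) x) :=
    (measurable_const.indicator ((mp g⁻¹).measurable hD)).sub (measurable_const.indicator hD)
  rw [norm_sub_sq m _ v _ hmeas h2]
  have h5 : ∀ x, ‖(U g⁻¹ ⁻¹' D).indicator (fun _ => (1 : ℝ)) x -
      D.indicator (fun _ => (1 : ℝ)) x‖ₑ ^ 2 = (U g⁻¹ ⁻¹' B).indicator (fun _ => 1) x := by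
    intro x
    have h6 : U g (U g⁻¹ x) = x := by
      rw [← U_mul, mul_inv_cancel, U_one]
    by_cases h7 : U g⁻¹ x ∈ D <;> by_cases h8 : x ∈ D <;>
      simp [Set.indicator, hB, h6, h7, h8]
  rw [lintegral_congr h5, lintegral_indicator_const ((mp g⁻¹).measurable hBm), one_mul,
    (mp g⁻¹).measure_preimage hBm.nullMeasurableSet]

/-- Left-right translations preserve the counting measure. -/
theorem map_count_mul [Countable G] [MeasurableSpace G] [DiscreteMeasurableSpace G] (a b : G) :
    (Measure.count : Measure G).map (fun h => a * h * b⁻¹) = Measure.count := by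
  ext s hs
  rw [Measure.map_apply (Measurable.of_discrete) hs]
  have h1 : (fun h => a * h * b⁻¹) ⁻¹' s = (fun h => a⁻¹ * h * b) '' s := by
    ext x
    constructor
    · intro hx
      exact ⟨_, hx, by group⟩
    · rintro ⟨y, hy, rfl⟩
      have h2 : a * (a⁻¹ * y * b) * b⁻¹ = y := by group
      rw [Set.mem_preimage, h2]
      exact hy
  rw [h1, Measure.count_injective_image]
  intro x y hxy
  have h3 : a⁻¹ * x * b = a⁻¹ * y * b := hxy
  exact mul_left_cancel (mul_right_cancel h3)

/-- The action on `Ω × G` twisted by two cocycles. -/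
def tw {Ω : Type} [MeasurableSpace Ω] (s : Sys G Ω) (a b : G → Ω → G) (g : G) (x : Ω × G) :
    Ω × G :=
  (s.T g x.1, a g x.1 * x.2 * (b g x.1)⁻¹)

theorem cocycle_one {Ω : Type} [MeasurableSpace Ω] (s : Sys G Ω) (a : G → Ω → G)
    (ha : ∀ g h ω, a (g * h) ω = a g (s.T h ω) * a h ω) (ω : Ω) : a 1 ω = 1 := by
  have h := ha 1 1 ω
  rw [mul_one, s.T_one] at h
  exact (mul_eq_left.1 h.symm)

theorem tw_mp [Countable G] [MeasurableSpace G] [DiscreteMeasurableSpace G] {Ω : Type}
    [MeasurableSpace Ω] (s : Sys G Ω) (a b : G → Ω → G) (ham : ∀ g, Measurable (a g))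
    (hbm : ∀ g, Measurable (b g)) (g : G) :
    MeasurePreserving (tw s a b g) (s.P.prod Measure.count) (s.P.prod Measure.count) := by
  refine MeasurePreserving.skew_product (s.mp g) (g := fun ω h => a g ω * h * (b g ω)⁻¹) ?_ ?_
  · have h1 : Measurable (fun q : G × G × G => q.1 * q.2.1 * q.2.2⁻¹) := Measurable.of_discrete
    exact h1.comp (((ham g).comp measurable_fst).prodMk
      (measurable_snd.prodMk ((hbm g).comp measurable_fst)))
  · exact Eventually.of_forall (fun ω => map_count_mul _ _)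

/-- Local rigidity of cocycles. -/
theorem one_step [Countable G] [MeasurableSpace G] [DiscreteMeasurableSpace G]
    {S : Finset G} {C : ℝ} (hK : Kazhdan G S C) {Ω : Type}
    [MeasurableSpace Ω] (s : Sys G Ω) (hs : s.Erg) (a b : G → Ω → G)
    (ham : ∀ g, Measurable (a g)) (hbm : ∀ g, Measurable (b g))
    (ha : ∀ g h ω, a (g * h) ω = a g (s.T h ω) * a h ω)
    (hb : ∀ g h ω, b (g * h) ω = b g (s.T h ω) * b h ω) {δ : ℝ} (hδ : 0 ≤ δ)
    (hCδ : C ^ 2 * (2 * δ) < 1 / 4)
    (hab : ∀ g ∈ S, s.P.real {ω | a g ω ≠ b g ω} ≤ δ) :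
    ∃ h : Ω → G, Measurable h ∧
      ∀ g, ∀ᵐ ω ∂s.P, h (s.T g ω) = a g ω * h ω * (b g ω)⁻¹ := by
  classical
  set m : Measure (Ω × G) := s.P.prod Measure.count with hm
  have U_one : ∀ x, tw s a b 1 x = x := by
    intro x
    unfold tw
    rw [s.T_one, cocycle_one s a ha, cocycle_one s b hb]
    simp
  have U_mul : ∀ g h x, tw s a b (g * h) x = tw s a b g (tw s a b h x) := by
    intro g h x
    unfold tw
    simp only [s.T_mul, ha, hb, mul_inv_rev, mul_assoc]
  have mp := tw_mp s a b ham hbm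
  set D : Set (Ω × G) := Set.univ ×ˢ {1} with hD
  have hDm : MeasurableSet D := MeasurableSet.univ.prod (measurableSet_singleton 1)
  have hDfin : m D ≠ ∞ := by
    rw [hm, hD, Measure.prod_prod, Measure.count_singleton]
    simp
  set v : Lp ℝ 2 m := (memLp_indicator_const 2 hDm (1 : ℝ) (Or.inr hDfin)).toLp _ with hv
  have hvc : v =ᵐ[m] D.indicator (fun _ => (1 : ℝ)) := MemLp.coeFn_toLp _
  set ρ := koop m (tw s a b) U_one U_mul mp with hρ
  have h1 : ∀ g ∈ S, ‖ρ g v - v‖ ≤ Real.sqrt (2 * δ) := by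
    intro g hg
    apply Real.le_sqrt_of_sq_le
    have h2 := koop_indicator m (tw s a b) U_one U_mul mp D hDm hDfin g
    have hne : MeasurableSet {ω | a g ω ≠ b g ω} :=
      (measurableSet_eq_fun (ham g) (hbm g)).compl
    have h3 : m {x | ¬ (tw s a b g x ∈ D ↔ x ∈ D)} ≤ 2 * s.P {ω | a g ω ≠ b g ω} := by
      have h4 : {x : Ω × G | ¬ (tw s a b g x ∈ D ↔ x ∈ D)} ⊆
          ({ω | a g ω ≠ b g ω} ×ˢ ({1} : Set G)) ∪
          {x : Ω × G | a g x.1 ≠ b g x.1 ∧ x.2 = (a g x.1)⁻¹ * b g x.1} := by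
        rintro ⟨ω, h⟩ hx
        simp only [Set.mem_ofPred_eq, hD, tw, Set.mem_prod, Set.mem_univ, true_and,
          Set.mem_singleton_iff] at hx
        by_cases h5 : h = 1
        · left
          refine ⟨?_, h5⟩
          intro h6
          apply hx
          have h7 : a g ω = b g ω := h6
          simp [h5, h7]
        · right
          have h6 : a g ω * h * (b g ω)⁻¹ = 1 := by
            by_contra h7
            exact hx ⟨fun h8 => absurd h8 h7, fun h8 => absurd h8 h5⟩
          have h8 : h = (a g ω)⁻¹ * b g ω := by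
            rw [mul_inv_eq_one] at h6
            rw [← h6]
            group
          refine ⟨?_, h8⟩
          intro h9
          apply h5
          have h10 : a g ω = b g ω := h9
          rw [h8, h10]
          group
      refine (measure_mono h4).trans ((measure_union_le _ _).trans ?_)
      rw [two_mul]
      refine add_le_add ?_ ?_
      · rw [hm, Measure.prod_prod, Measure.count_singleton, mul_one]
      · have hset : MeasurableSet {x : Ω × G | a g x.1 ≠ b g x.1 ∧
            x.2 = (a g x.1)⁻¹ * b g x.1} := by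
          have h5 : Measurable (fun x : Ω × G => (a g x.1)⁻¹ * b g x.1) := by
            have h6 : Measurable (fun q : G × G => q.1⁻¹ * q.2) := Measurable.of_discrete
            exact h6.comp (((ham g).comp measurable_fst).prodMk ((hbm g).comp measurable_fst))
          exact (hne.preimage measurable_fst).inter (measurableSet_eq_fun measurable_snd h5)
        rw [hm, Measure.prod_apply hset]
        have h6 : ∀ ω, Measure.count (Prod.mk ω ⁻¹' {x : Ω × G | a g x.1 ≠ b g x.1 ∧
            x.2 = (a g x.1)⁻¹ * b g x.1}) ≤ {ω | a g ω ≠ b g ω}.indicator (fun _ => 1) ω := by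
          intro ω
          by_cases h7 : a g ω = b g ω
          · have h8 : Prod.mk ω ⁻¹' {x : Ω × G | a g x.1 ≠ b g x.1 ∧
                x.2 = (a g x.1)⁻¹ * b g x.1} = ∅ := by
              ext y
              simp [h7]
            rw [h8, measure_empty]
            exact bot_le
          · have h8 : Prod.mk ω ⁻¹' {x : Ω × G | a g x.1 ≠ b g x.1 ∧
                x.2 = (a g x.1)⁻¹ * b g x.1} ⊆ {(a g ω)⁻¹ * b g ω} := by
              rintro y ⟨-, hy⟩
              exact hy
            refine (measure_mono h8).trans ?_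
            rw [Measure.count_singleton]
            simp [Set.indicator, h7]
        refine (lintegral_mono h6).trans ?_
        rw [lintegral_indicator_const hne, one_mul]
    have h4 : ENNReal.ofReal (‖ρ g v - v‖ ^ 2) ≤ ENNReal.ofReal (2 * δ) := by
      rw [h2]
      refine h3.trans ?_
      rw [ENNReal.ofReal_mul (by norm_num), ENNReal.ofReal_ofNat]
      gcongr
      rw [← ENNReal.ofReal_toReal (measure_ne_top s.P {ω | a g ω ≠ b g ω})]
      exact ENNReal.ofReal_le_ofReal (hab g hg)
    exact (ENNReal.ofReal_le_ofReal_iff (by positivity)).1 h4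
  obtain ⟨w, hw, hvw⟩ := hK (Lp ℝ 2 m) ρ (koop_norm m _ U_one U_mul mp) v
    (Real.sqrt (2 * δ)) (Real.sqrt_nonneg _) h1
  have hvw2 : ‖v - w‖ ^ 2 < 1 / 4 := by
    calc ‖v - w‖ ^ 2 ≤ (C * Real.sqrt (2 * δ)) ^ 2 :=
          pow_le_pow_left₀ (norm_nonneg _) hvw 2
      _ = C ^ 2 * (2 * δ) := by rw [mul_pow, Real.sq_sqrt (by positivity)]
      _ < 1 / 4 := hCδ
  have hwm : Measurable (w : Ω × G → ℝ) := (Lp.stronglyMeasurable w).measurable
  -- invariance
  have hinv : ∀ g, ∀ᵐ ω ∂s.P, ∀ h, w (s.T g ω, a g ω * h * (b g ω)⁻¹) = w (ω, h) := by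
    intro g
    have h3 := koop_coe m (tw s a b) U_one U_mul mp g⁻¹ w
    have h4 : ρ g⁻¹ w = w := hw g⁻¹
    rw [hρ] at h4
    rw [h4] at h3
    have h5 : ∀ᵐ x ∂m, w (tw s a b g x) = w x := by
      filter_upwards [h3] with x h3
      rw [h3, inv_inv]
      rfl
    have h6 := Measure.ae_ae_of_ae_prod h5
    filter_upwards [h6] with ω h6 h
    have h7 : Measure.count {h | ¬ w (tw s a b g (ω, h)) = w (ω, h)} = 0 := h6
    rw [Measure.count_eq_zero_iff] at h7
    by_contra h8
    have h9 : h ∈ {h | ¬ w (tw s a b g (ω, h)) = w (ω, h)} := h8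
    rw [h7] at h9
    exact h9
  -- the good set
  set B : Set Ω := {ω | ∃ h, 1 / 2 < w (ω, h) ∧ ∀ h', h' ≠ h → w (ω, h') ≤ 1 / 2} with hB
  have hlev : ∀ h, MeasurableSet {ω | 1 / 2 < w (ω, h)} := fun h =>
    measurableSet_lt measurable_const (hwm.comp (measurable_id.prodMk measurable_const))
  have hBm : MeasurableSet B := by
    have h2 : B = ⋃ h, ({ω | 1 / 2 < w (ω, h)} ∩
        ⋂ h' : G, ⋂ _ : h' ≠ h, {ω | 1 / 2 < w (ω, h')}ᶜ) := by
      ext ω
      simp only [hB, Set.mem_ofPred_eq, Set.mem_iUnion, Set.mem_inter_iff, Set.mem_iInter,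
        Set.mem_compl_iff, not_lt]
    rw [h2]
    refine MeasurableSet.iUnion (fun h => (hlev h).inter ?_)
    exact MeasurableSet.iInter (fun h' => MeasurableSet.iInter (fun _ => (hlev h').compl))
  have hBinv : ∀ g, ∀ᵐ ω ∂s.P, (s.T g ω ∈ B ↔ ω ∈ B) := by
    intro g
    filter_upwards [hinv g] with ω hω
    constructor
    · rintro ⟨h, h2, h3⟩
      refine ⟨(a g ω)⁻¹ * h * b g ω, ?_, ?_⟩
      · rw [← hω]
        have h4 : a g ω * ((a g ω)⁻¹ * h * b g ω) * (b g ω)⁻¹ = h := by group
        rw [h4]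
        exact h2
      · intro h' h4
        rw [← hω]
        apply h3
        intro h5
        apply h4
        rw [← h5]
        group
    · rintro ⟨h, h2, h3⟩
      refine ⟨a g ω * h * (b g ω)⁻¹, ?_, ?_⟩
      · rw [hω]
        exact h2
      · intro h' h4
        have h5 : a g ω * ((a g ω)⁻¹ * h' * b g ω) * (b g ω)⁻¹ = h' := by group
        rw [← h5, hω]
        apply h3
        intro h6
        apply h4
        rw [← h6]
        group
  have hBpos : s.P B ≠ 0 := by
    intro h0
    have h2 : ∀ᵐ x ∂m, v x - w x = D.indicator (fun _ => (1 : ℝ)) x - w x := by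
      filter_upwards [hvc] with x h3
      rw [h3]
    have hmeas : Measurable (fun x => D.indicator (fun _ => (1 : ℝ)) x - w x) :=
      (measurable_const.indicator hDm).sub hwm
    have h3 := norm_sub_sq m v w _ hmeas h2
    have h4 : ENNReal.ofReal (1 / 4) ≤
        ∫⁻ x, ‖D.indicator (fun _ => (1 : ℝ)) x - w x‖ₑ ^ 2 ∂m := by
      have h40 : ∫⁻ x, ‖D.indicator (fun _ => (1 : ℝ)) x - w x‖ₑ ^ 2 ∂m = ∫⁻ ω, ∫⁻ h,
          ‖D.indicator (fun _ => (1 : ℝ)) (ω, h) - w (ω, h)‖ₑ ^ 2 ∂Measure.count ∂s.P :=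
        lintegral_prod _ ((hmeas.enorm.pow_const 2).aemeasurable)
      rw [h40]
      have h5 : ∀ᵐ ω ∂s.P, ENNReal.ofReal (1 / 4) ≤
          ∫⁻ h, ‖D.indicator (fun _ => (1 : ℝ)) (ω, h) - w (ω, h)‖ₑ ^ 2 ∂Measure.count := by
        have h6 : ∀ᵐ ω ∂s.P, ω ∉ B := measure_eq_zero_iff_ae_notMem.1 h0
        filter_upwards [h6] with ω h6
        rw [lintegral_count]
        -- some coordinate is off by one half
        have h7 : ∃ h, 1 / 2 ≤ |D.indicator (fun _ => (1 : ℝ)) (ω, h) - w (ω, h)| := by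
          by_contra h8
          push Not at h8
          apply h6
          refine ⟨1, ?_, ?_⟩
          · have h9 := h8 1
            rw [Set.indicator_of_mem (by rw [hD]; exact ⟨trivial, rfl⟩)] at h9
            rw [abs_lt] at h9
            linarith
          · intro h' hh'
            have h9 := h8 h'
            rw [Set.indicator_of_notMem (by rw [hD]; rintro ⟨-, h10⟩; exact hh' h10)] at h9
            rw [abs_lt] at h9
            linarith
        obtain ⟨h, hh⟩ := h7
        refine le_trans ?_ (ENNReal.le_tsum h)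
        rw [← ofReal_norm, ← ENNReal.ofReal_pow (norm_nonneg _), Real.norm_eq_abs]
        apply ENNReal.ofReal_le_ofReal
        nlinarith
      calc ENNReal.ofReal (1 / 4) = ∫⁻ _ : Ω, ENNReal.ofReal (1 / 4) ∂s.P := by
            rw [lintegral_const, measure_univ, mul_one]
        _ ≤ _ := lintegral_mono_ae h5
    rw [← h3] at h4
    have h5 := (ENNReal.ofReal_le_ofReal_iff (sq_nonneg _)).1 h4
    linarith
  have hBall := Erg.ae_of_pos hs hBm hBinv hBpos
  -- the transfer function
  let h : Ω → G := fun ω => if hω : ω ∈ B then hω.choose else 1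
  have hspec : ∀ ω (hω : ω ∈ B), 1 / 2 < w (ω, h ω) ∧ ∀ h', h' ≠ h ω → w (ω, h') ≤ 1 / 2 := by
    intro ω hω
    have h2 : h ω = hω.choose := dif_pos hω
    rw [h2]
    exact hω.choose_spec
  have huniq : ∀ ω (_ : ω ∈ B) k, 1 / 2 < w (ω, k) → k = h ω := by
    intro ω hω k hk
    by_contra h2
    exact absurd hk (not_lt.2 ((hspec ω hω).2 k h2))
  refine ⟨h, ?_, ?_⟩
  · refine measurable_to_countable' (fun k => ?_)
    have h2 : h ⁻¹' {k} = (B ∩ {ω | 1 / 2 < w (ω, k)}) ∪ (Bᶜ ∩ {_ω | k = 1}) := by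
      ext ω
      simp only [Set.mem_preimage, Set.mem_singleton_iff, Set.mem_union, Set.mem_inter_iff,
        Set.mem_ofPred_eq, Set.mem_compl_iff]
      by_cases hω : ω ∈ B
      · constructor
        · intro h3
          left
          refine ⟨hω, ?_⟩
          rw [← h3]
          exact (hspec ω hω).1
        · rintro (⟨-, h3⟩ | ⟨h3, -⟩)
          · exact (huniq ω hω k h3).symm
          · exact absurd hω h3
      · have h3 : h ω = 1 := dif_neg hω
        rw [h3]
        constructor
        · intro h4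
          right
          exact ⟨hω, h4.symm⟩
        · rintro (⟨h4, -⟩ | ⟨-, h4⟩)
          · exact absurd h4 hω
          · exact h4.symm
    rw [h2]
    refine (hBm.inter (hlev k)).union (hBm.compl.inter ?_)
    by_cases hk : k = 1 <;> simp [hk]
  · intro g
    have h2 := (s.mp g).quasiMeasurePreserving.ae hBall
    filter_upwards [hinv g, hBall, h2] with ω h3 h4 h5
    refine (huniq _ h5 _ ?_).symm
    rw [h3]
    exact (hspec ω h4).1

end Pool.Agent.Helper94_DC
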